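import Mathlib

/-!
# Counting independent sets: basic recurrences

`cnt G U` is the number of independent subsets of `U` in the graph `G`.
-/

set_option linter.unusedSectionVars false

namespace Pool.Agent.Lib.MP_1f0029_co

open Finset

variable {V : Type} [DecidableEq V] (G : SimpleGraph V) [DecidableRel G.Adj]

/-- `U` is an independent set of `G`. -/
def Indep (U : Finset V) : Prop := ∀ x ∈ U, ∀ y ∈ U, ¬ G.Adj x y

/-- The number of independent subsets of `U`. -/
def cnt (U : Finset V) : ℕ :=
  (U.powerset.filter (fun A => ∀ x ∈ A, ∀ y ∈ A, ¬ G.Adj x y)).card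

/-- The non-neighbours of `v` in `U` (other than `v`). -/
def nn (U : Finset V) (v : V) : Finset V := U.filter (fun w => w ≠ v ∧ ¬ G.Adj v w)

lemma mem_nn {U : Finset V} {v w : V} : w ∈ nn G U v ↔ w ∈ U ∧ w ≠ v ∧ ¬ G.Adj v w := by
  simp [nn]

lemma nn_subset (U : Finset V) (v : V) : nn G U v ⊆ U := Finset.filter_subset _ _

lemma cnt_mono {U W : Finset V} (h : U ⊆ W) : cnt G U ≤ cnt G W := by
  unfold cnt
  apply Finset.card_le_card
  intro A hA
  simp only [Finset.mem_filter, Finset.mem_powerset] at hA ⊢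
  exact ⟨hA.1.trans h, hA.2⟩

lemma cnt_pos (U : Finset V) : 0 < cnt G U := by
  unfold cnt
  apply Finset.card_pos.mpr
  refine ⟨∅, ?_⟩
  simp

lemma cnt_rec {U : Finset V} {v : V} (hv : v ∈ U) :
    cnt G U = cnt G (U.erase v) + cnt G (nn G U v) := by
  unfold cnt
  rw [← Finset.card_filter_add_card_filter_not (s := U.powerset.filter
    (fun A => ∀ x ∈ A, ∀ y ∈ A, ¬ G.Adj x y)) (p := fun A => v ∉ A)]
  congr 1
  · congr 1
    ext A
    simp only [Finset.mem_filter, Finset.mem_powerset, Finset.subset_erase]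
    tauto
  · symm
    apply Finset.card_bij (fun A _ => insert v A)
    · intro A hA
      simp only [Finset.mem_filter, Finset.mem_powerset] at hA ⊢
      obtain ⟨hA1, hA2⟩ := hA
      refine ⟨⟨?_, ?_⟩, by simp⟩
      · intro x hx
        rcases Finset.mem_insert.mp hx with rfl | hx
        · exact hv
        · exact nn_subset G U v (hA1 hx)
      · intro x hx y hy
        rcases Finset.mem_insert.mp hx with hx1 | hx1 <;> rcases Finset.mem_insert.mp hy with hy1 | hy1
        · rw [hx1, hy1]; exact G.loopless.irrefl _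
        · rw [hx1]; exact ((mem_nn G).mp (hA1 hy1)).2.2
        · rw [hy1]; intro h
          exact ((mem_nn G).mp (hA1 hx1)).2.2 h.symm
        · exact hA2 x hx1 y hy1
    · intro A hA B hB h
      simp only [Finset.mem_filter, Finset.mem_powerset] at hA hB
      have h1 : v ∉ A := fun hh => ((mem_nn G).mp (hA.1 hh)).2.1 rfl
      have h2 : v ∉ B := fun hh => ((mem_nn G).mp (hB.1 hh)).2.1 rfl
      have := congrArg (fun S => S.erase v) h
      simpa [Finset.erase_insert h1, Finset.erase_insert h2] using this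
    · intro A hA
      simp only [Finset.mem_filter, Finset.mem_powerset, not_not] at hA
      obtain ⟨⟨hA1, hA2⟩, hvA⟩ := hA
      refine ⟨A.erase v, ?_, Finset.insert_erase hvA⟩
      simp only [Finset.mem_filter, Finset.mem_powerset]
      refine ⟨?_, ?_⟩
      · intro x hx
        have hx' := Finset.mem_erase.mp hx
        exact (mem_nn G).mpr ⟨hA1 hx'.2, hx'.1, hA2 v hvA x hx'.2⟩
      · intro x hx y hy
        exact hA2 x (Finset.mem_of_mem_erase hx) y (Finset.mem_of_mem_erase hy)

lemma nn_insert_self (U : Finset V) (v : V) : nn G (insert v U) v = nn G U v := by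
  ext w
  simp only [mem_nn, Finset.mem_insert]
  constructor
  · rintro ⟨h1 | h1, h2, h3⟩
    · exact absurd h1 h2
    · exact ⟨h1, h2, h3⟩
  · rintro ⟨h1, h2, h3⟩
    exact ⟨Or.inr h1, h2, h3⟩

lemma nn_erase_self (U : Finset V) (v : V) : nn G (U.erase v) v = nn G U v := by
  ext w
  simp only [mem_nn, Finset.mem_erase]
  tauto

lemma cnt_insert {U : Finset V} {v : V} (hv : v ∉ U) :
    cnt G (insert v U) = cnt G U + cnt G (nn G U v) := by
  rw [cnt_rec G (Finset.mem_insert_self v U), Finset.erase_insert hv, nn_insert_self]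

lemma cnt_nn_le_erase (U : Finset V) (v : V) : cnt G (nn G U v) ≤ cnt G (U.erase v) := by
  apply cnt_mono
  intro w hw
  rw [mem_nn] at hw
  exact Finset.mem_erase.mpr ⟨hw.2.1, hw.1⟩

lemma cnt_le_two_erase (U : Finset V) (v : V) : cnt G U ≤ 2 * cnt G (U.erase v) := by
  by_cases hv : v ∈ U
  · rw [cnt_rec G hv]
    have := cnt_nn_le_erase G U v
    omega
  · rw [Finset.erase_eq_of_notMem hv]
    omega

lemma cnt_of_indep {U : Finset V} (h : Indep G U) : cnt G U = 2 ^ U.card := by
  unfold cnt
  rw [Finset.filter_true_of_mem, Finset.card_powerset]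
  intro A hA x hx y hy
  exact h x (Finset.mem_powerset.mp hA hx) y (Finset.mem_powerset.mp hA hy)

/-- Removing a set `Z` of isolated vertices. -/
lemma cnt_isolated (Z : Finset V) : ∀ (U W : Finset V), Z ⊆ U → W ⊆ U → Disjoint W Z →
    (∀ z ∈ Z, ∀ w ∈ U, ¬ G.Adj z w) → cnt G W * 2 ^ Z.card ≤ cnt G U := by
  induction Z using Finset.induction_on with
  | empty =>
    intro U W _ hW _ _
    simpa using cnt_mono G hW
  | insert z Z hz ih =>
    intro U W hZ hW hd hiso
    have hzU : z ∈ U := hZ (Finset.mem_insert_self z Z)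
    have h1 : nn G U z = U.erase z := by
      ext w
      simp only [mem_nn, Finset.mem_erase]
      constructor
      · rintro ⟨a, b, _⟩; exact ⟨b, a⟩
      · rintro ⟨a, b⟩; exact ⟨b, a, hiso z (Finset.mem_insert_self z Z) w b⟩
    have h2 : cnt G W * 2 ^ Z.card ≤ cnt G (U.erase z) := by
      apply ih
      · intro y hy
        refine Finset.mem_erase.mpr ⟨?_, hZ (Finset.mem_insert_of_mem hy)⟩
        rintro rfl; exact hz hy
      · intro w hw
        refine Finset.mem_erase.mpr ⟨?_, hW hw⟩
        rintro rfl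
        exact (Finset.disjoint_left.mp hd hw) (Finset.mem_insert_self _ _)
      · exact hd.mono_right (Finset.subset_insert z Z)
      · intro y hy w hw
        exact hiso y (Finset.mem_insert_of_mem hy) w (Finset.mem_of_mem_erase hw)
    rw [cnt_rec G hzU, h1, Finset.card_insert_of_notMem hz, pow_succ]
    nlinarith

/-- In a non-independent set, a vertex minimising `cnt (nn U v)` satisfies the 1/3 bound. -/
lemma exists_min {U : Finset V} (hU : ¬ Indep G U) :
    ∃ v ∈ U, (∀ w ∈ U, cnt G (nn G U v) ≤ cnt G (nn G U w)) ∧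
      2 * cnt G (nn G U v) ≤ cnt G (U.erase v) := by
  unfold Indep at hU
  push Not at hU
  obtain ⟨x, hx, y, hy, hxy⟩ := hU
  have key : ∀ x ∈ U, ∀ y ∈ U, G.Adj x y →
      2 * cnt G (nn G U x) + cnt G (nn G U y) ≤ cnt G U := by
    intro x hx y hy hxy
    have hne : x ≠ y := hxy.ne
    rw [cnt_rec G hy]
    have hx' : x ∈ U.erase y := Finset.mem_erase.mpr ⟨hne, hx⟩
    have h1 : nn G (U.erase y) x = nn G U x := by
      ext w
      simp only [mem_nn, Finset.mem_erase]
      constructor
      · rintro ⟨⟨_, a⟩, b, c⟩; exact ⟨a, b, c⟩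
      · rintro ⟨a, b, c⟩
        refine ⟨⟨?_, a⟩, b, c⟩
        rintro rfl; exact c hxy
    rw [cnt_rec G hx', h1]
    have h2 : cnt G (nn G U x) ≤ cnt G ((U.erase y).erase x) := by
      rw [← h1]; exact cnt_nn_le_erase G _ _
    omega
  obtain ⟨v, hv, hmin⟩ := Finset.exists_min_image U (fun v => cnt G (nn G U v)) ⟨x, hx⟩
  refine ⟨v, hv, hmin, ?_⟩
  have h1 := key x hx y hy hxy
  have h2 := hmin x hx
  have h3 := hmin y hy
  have h4 := cnt_rec G hv
  omega

end Pool.Agent.Lib.MP_1f0029_co
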