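import Mathlib
import Pool.Agent.Lib.MP_1f0029_co.Count

/-!
# Bit masks relative to a list of cover vertices

For a list `us` of vertices (the most recently added first) `mask G us x` is the bit mask of
the neighbours of `x` in `us`; the vertex at the head of `us` has bit index `us.length - 1`.
`inds G us` lists the bit masks of the independent subsets of `us`.
-/

set_option linter.unusedSectionVars false

namespace Pool.Agent.Lib.MP_1f0029_co

open Finset

variable {V : Type} [DecidableEq V] (G : SimpleGraph V) [DecidableRel G.Adj]

/-! ### Bit lemmas -/

lemma land_eq_zero_iff (A B : ℕ) :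
    Nat.land A B = 0 ↔ ∀ i, ¬ (A.testBit i = true ∧ B.testBit i = true) := by
  constructor
  · intro h i hi
    have h1 : (Nat.land A B).testBit i = (A.testBit i && B.testBit i) := Nat.testBit_and A B i
    rw [h] at h1
    simp [hi.1, hi.2] at h1
  · intro h
    apply Nat.eq_of_testBit_eq
    intro i
    have h1 : (Nat.land A B).testBit i = (A.testBit i && B.testBit i) := Nat.testBit_and A B i
    rw [h1, Nat.zero_testBit]
    have := h i
    cases hA : A.testBit i <;> cases hB : B.testBit i <;> simp_all

lemma testBit_add_two_pow {A s : ℕ} (hA : A < 2 ^ s) (i : ℕ) :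
    (A + 2 ^ s).testBit i = (A.testBit i || decide (i = s)) := by
  have h : A + 2 ^ s = 2 ^ s ||| A := by
    have := Nat.two_pow_add_eq_or_of_lt hA 1
    simpa [Nat.add_comm] using this
  rw [h, Nat.testBit_or, Nat.testBit_two_pow, Bool.or_comm]
  congr 1
  simp [eq_comm]

lemma testBit_add_two_pow_ne {A s i : ℕ} (hA : A < 2 ^ s) (hi : i ≠ s) :
    (A + 2 ^ s).testBit i = A.testBit i := by
  rw [testBit_add_two_pow hA]; simp [hi]

lemma testBit_add_two_pow_self {A s : ℕ} (hA : A < 2 ^ s) :
    (A + 2 ^ s).testBit s = true := by
  rw [testBit_add_two_pow hA]; simp

lemma testBit_of_lt {A s i : ℕ} (hA : A < 2 ^ s) (hi : s ≤ i) : A.testBit i = false := by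
  apply Nat.testBit_lt_two_pow
  exact hA.trans_le (Nat.pow_le_pow_right (by norm_num) hi)

/-- The mask of `x` relative to `us`. -/
def mask : List V → V → ℕ
  | [], _ => 0
  | u :: us, x => mask us x + (if G.Adj u x then 2 ^ us.length else 0)

lemma mask_lt (us : List V) (x : V) : mask G us x < 2 ^ us.length := by
  induction us with
  | nil => simp [mask]
  | cons u us ih =>
    simp only [mask, List.length_cons, pow_succ]
    split_ifs <;> omega

lemma mask_testBit_last (u : V) (us : List V) (x : V) :
    (mask G (u :: us) x).testBit us.length = decide (G.Adj u x) := by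
  simp only [mask]
  split_ifs with h
  · rw [testBit_add_two_pow (mask_lt G us x)]
    simp [h]
  · rw [Nat.add_zero, testBit_of_lt (mask_lt G us x) le_rfl]
    simp [h]

lemma mask_testBit_lt (u : V) (us : List V) (x : V) {i : ℕ} (hi : i < us.length) :
    (mask G (u :: us) x).testBit i = (mask G us x).testBit i := by
  simp only [mask]
  split_ifs with h
  · rw [testBit_add_two_pow (mask_lt G us x)]
    have : i ≠ us.length := by omega
    simp [this]
  · rw [Nat.add_zero]

/-- The list of masks after adding a vertex with mask `B` and bit value `b`. -/
def newInd (B b : ℕ) (ind : List ℕ) : List ℕ :=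
  ind ++ ((ind.filter (fun A => Nat.beq (Nat.land A B) 0)).map (fun A => A + b))

/-- Masks of the independent subsets of `us`. -/
def inds : List V → List ℕ
  | [] => [0]
  | u :: us => newInd (mask G us u) (2 ^ us.length) (inds us)

lemma inds_lt (us : List V) : ∀ A ∈ inds G us, A < 2 ^ us.length := by
  induction us with
  | nil => simp [inds]
  | cons u us ih =>
    intro A hA
    simp only [inds, newInd, List.mem_append, List.mem_map, List.mem_filter] at hA
    simp only [List.length_cons, pow_succ]
    rcases hA with hA | ⟨A', ⟨hA', _⟩, rfl⟩
    · have := ih A hA; omega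
    · have := ih A' hA'; omega

/-- The cover vertices whose bit is not in `B`. -/
def cov : List V → ℕ → Finset V
  | [], _ => ∅
  | u :: us, B => if B.testBit us.length then cov us B else insert u (cov us B)

lemma cov_subset (us : List V) (B : ℕ) : ∀ x ∈ cov us B, x ∈ us := by
  induction us with
  | nil => simp [cov]
  | cons u us ih =>
    intro x hx
    simp only [cov] at hx
    split_ifs at hx with h
    · exact List.mem_cons_of_mem _ (ih x hx)
    · rcases Finset.mem_insert.mp hx with rfl | hx
      · exact List.mem_cons_self
      · exact List.mem_cons_of_mem _ (ih x hx)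

lemma cov_zero (us : List V) : cov us 0 = us.toFinset := by
  induction us with
  | nil => simp [cov]
  | cons u us ih => simp [cov, ih]

lemma cov_nn (us : List V) (hnd : us.Nodup) (u : V) (hu : u ∉ us) (B : ℕ) :
    (cov us B).filter (fun w => w ≠ u ∧ ¬ G.Adj u w) = cov us (B ||| mask G us u) := by
  induction us with
  | nil => simp [cov]
  | cons w us ih =>
    have hnd' := (List.nodup_cons.mp hnd).2
    have hw := (List.nodup_cons.mp hnd).1
    have hu' : u ∉ us := fun h => hu (List.mem_cons_of_mem _ h)
    have hne : w ≠ u := fun h => hu (h ▸ List.mem_cons_self)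
    have ih' := ih hnd' hu'
    -- mask agrees on lower bits
    have hcongr : ∀ (B C : ℕ), (∀ i < us.length, B.testBit i = C.testBit i) →
        cov us B = cov us C := by
      clear ih ih' hnd' hw hu' hnd hu
      induction us with
      | nil => intros; rfl
      | cons a as iha =>
        intro B C h
        simp only [cov]
        rw [h as.length (by simp), iha B C (fun i hi => h i (by simp; omega))]
    have h1 : cov us (B ||| mask G (w :: us) u) = cov us (B ||| mask G us u) := by
      apply hcongr
      intro i hi
      rw [Nat.testBit_or, Nat.testBit_or, mask_testBit_lt G w us u hi]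
    simp only [cov]
    rw [h1, Nat.testBit_or, mask_testBit_last]
    by_cases hB : B.testBit us.length
    · simp only [hB, Bool.true_or, if_true]
      exact ih'
    · have hB' : B.testBit us.length = false := by simpa using hB
      simp only [hB', Bool.false_or, decide_eq_true_eq, Bool.false_eq_true, if_false]
      by_cases hadj : G.Adj w u
      · simp only [hadj, if_true]
        rw [Finset.filter_insert]
        rw [if_neg (by intro h; exact h.2 hadj.symm)]
        exact ih'
      · simp only [hadj, if_false]
        rw [Finset.filter_insert]
        rw [if_pos ⟨hne, fun h => hadj h.symm⟩]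
        rw [ih']

/-- Sum over the independent masks avoiding `B`. -/
def wsum (ind : List ℕ) (B : ℕ) (f : ℕ → ℕ) : ℕ :=
  ((ind.filter (fun A => Nat.beq (Nat.land A B) 0)).map f).sum

lemma list_filter_congr' {α : Type} {l : List α} {p q : α → Bool} (h : ∀ a ∈ l, p a = q a) :
    l.filter p = l.filter q := List.filter_congr h

/-- The counting formula. -/
theorem cnt_cov (us : List V) : us.Nodup → ∀ (X : Finset V), Indep G X → (∀ x ∈ X, x ∉ us) →
    ∀ B : ℕ, cnt G (X ∪ cov us B) =
      wsum (inds G us) B
        (fun A => 2 ^ (X.filter (fun x => Nat.land A (mask G us x) = 0)).card) := by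
  induction us with
  | nil =>
    intro _ X hX _ B
    have h0 : Nat.land 0 B = 0 := Nat.zero_and B
    have h1 : ∀ x : V, Nat.land 0 (mask G [] x) = 0 := fun x => Nat.zero_and _
    simp only [cov, Finset.union_empty, wsum, inds]
    rw [cnt_of_indep G hX]
    simp [h0, h1]
  | cons u us ih =>
    intro hnd X hX hdis B
    have hnd' := (List.nodup_cons.mp hnd).2
    have huus := (List.nodup_cons.mp hnd).1
    have hdis' : ∀ x ∈ X, x ∉ us := fun x hx h => hdis x hx (List.mem_cons_of_mem _ h)
    have huX : u ∉ X := fun h => hdis u h List.mem_cons_self
    set s := us.length with hs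
    set m := mask G us u with hm
    -- rewriting the two halves
    have hlow : ∀ A ∈ inds G us, ∀ x : V,
        (Nat.land A (mask G (u :: us) x) = 0 ↔ Nat.land A (mask G us x) = 0) := by
      intro A hA x
      have hlt := inds_lt G us A hA
      rw [land_eq_zero_iff, land_eq_zero_iff]
      constructor
      · intro h i hi
        by_cases his : i < us.length
        · exact h i ⟨hi.1, by rw [mask_testBit_lt G u us x his]; exact hi.2⟩
        · rw [testBit_of_lt hlt (by omega)] at hi
          exact absurd hi.1 (by simp)
      · intro h i hi
        by_cases his : i < us.length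
        · exact h i ⟨hi.1, by rw [mask_testBit_lt G u us x his] at hi; exact hi.2⟩
        · rw [testBit_of_lt hlt (by omega)] at hi
          exact absurd hi.1 (by simp)
    have hhigh : ∀ A ∈ inds G us, ∀ x : V,
        (Nat.land (A + 2 ^ s) (mask G (u :: us) x) = 0 ↔
          Nat.land A (mask G us x) = 0 ∧ ¬ G.Adj u x) := by
      intro A hA x
      have hlt := inds_lt G us A hA
      rw [land_eq_zero_iff, land_eq_zero_iff]
      constructor
      · intro h
        constructor
        · intro i hi
          by_cases his : i < us.length
          · apply h i
            rw [testBit_add_two_pow hlt, mask_testBit_lt G u us x his]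
            simp [hi.1, hi.2]
          · rw [testBit_of_lt hlt (by omega)] at hi
            exact absurd hi.1 (by simp)
        · intro hadj
          apply h us.length
          rw [testBit_add_two_pow hlt, mask_testBit_last]
          simp [hadj, hs]
      · rintro ⟨h, hadj⟩ i hi
        by_cases his : i < us.length
        · rw [mask_testBit_lt G u us x his] at hi
          have : i ≠ us.length := by omega
          rw [hs, testBit_add_two_pow_ne hlt this] at hi
          exact h i hi
        · by_cases his' : i = us.length
          · subst his'
            rw [mask_testBit_last] at hi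
            exact hadj (by simpa using hi.2)
          · have h2 : (mask G (u :: us) x).testBit i = false := by
              apply testBit_of_lt (mask_lt G (u :: us) x)
              simp; omega
            rw [h2] at hi
            exact absurd hi.2 (by simp)
    have hB : ∀ A ∈ inds G us,
        (Nat.land (A + 2 ^ s) B = 0 ↔ Nat.land A B = 0 ∧ B.testBit s = false) := by
      intro A hA
      have hlt := inds_lt G us A hA
      rw [land_eq_zero_iff, land_eq_zero_iff]
      constructor
      · intro h
        constructor
        · intro i hi
          apply h i
          rw [testBit_add_two_pow hlt]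
          simp [hi.1, hi.2]
        · by_contra hc
          have hc' : B.testBit s = true := by simpa using hc
          apply h s
          exact ⟨testBit_add_two_pow_self hlt, hc'⟩
      · rintro ⟨h, hb⟩ i hi
        by_cases his : i = s
        · rw [his, hb] at hi
          exact absurd hi.2 (by simp)
        · rw [testBit_add_two_pow_ne hlt his] at hi
          exact h i hi
    -- the first half
    have hA1 : ((inds G us).filter (fun A => Nat.beq (Nat.land A B) 0)).map
        (fun A => 2 ^ (X.filter (fun x => Nat.land A (mask G (u :: us) x) = 0)).card) =
        ((inds G us).filter (fun A => Nat.beq (Nat.land A B) 0)).map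
        (fun A => 2 ^ (X.filter (fun x => Nat.land A (mask G us x) = 0)).card) := by
      apply List.map_congr_left
      intro A hA
      have hA' := (List.mem_filter.mp hA).1
      simp only [hlow A hA']
    have hsplit : wsum (inds G (u :: us)) B
        (fun A => 2 ^ (X.filter (fun x => Nat.land A (mask G (u :: us) x) = 0)).card) =
        wsum (inds G us) B (fun A => 2 ^ (X.filter (fun x => Nat.land A (mask G us x) = 0)).card)
        + ((((inds G us).filter (fun A => Nat.beq (Nat.land A m) 0)).map (fun A => A + 2 ^ s)).filter
            (fun A => Nat.beq (Nat.land A B) 0)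
            |>.map (fun A => 2 ^ (X.filter (fun x => Nat.land A (mask G (u :: us) x) = 0)).card)).sum := by
      simp only [wsum, inds, newInd, List.filter_append, List.map_append, List.sum_append]
      rw [← hA1]
    rw [hsplit]
    simp only [cov, ← hs]
    by_cases hBs : B.testBit s
    · -- second half empty
      simp only [hBs, if_true]
      have hempty : (((inds G us).filter (fun A => Nat.beq (Nat.land A m) 0)).map
          (fun A => A + 2 ^ s)).filter (fun A => Nat.beq (Nat.land A B) 0) = [] := by
        rw [List.filter_eq_nil_iff]
        intro A hA
        obtain ⟨A', hA', rfl⟩ := List.mem_map.mp hA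
        have hA'' := (List.mem_filter.mp hA').1
        rw [Nat.beq_eq, hB A' hA'', hBs]
        simp
      rw [hempty]
      simp only [List.map_nil, List.sum_nil, Nat.add_zero]
      exact ih hnd' X hX hdis' B
    · have hBs' : B.testBit s = false := by simpa using hBs
      simp only [hBs', Bool.false_eq_true, if_false]
      have hunion : X ∪ insert u (cov us B) = insert u (X ∪ cov us B) := by
        ext w; simp only [Finset.mem_union, Finset.mem_insert]; tauto
      have hunot : u ∉ X ∪ cov us B := by
        intro h
        rcases Finset.mem_union.mp h with h | h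
        · exact huX h
        · exact huus (cov_subset us B u h)
      rw [hunion, cnt_insert G hunot, ih hnd' X hX hdis' B]
      congr 1
      -- the nonneighbour part
      have hnn : nn G (X ∪ cov us B) u = X.filter (fun w => ¬ G.Adj u w) ∪ cov us (B ||| m) := by
        rw [hm, ← cov_nn G us hnd' u huus B]
        ext w
        simp only [mem_nn, Finset.mem_union, Finset.mem_filter]
        constructor
        · rintro ⟨h1 | h1, h2, h3⟩
          · exact Or.inl ⟨h1, h3⟩
          · exact Or.inr ⟨h1, h2, h3⟩
        · rintro (⟨h1, h2⟩ | ⟨h1, h2, h3⟩)
          · exact ⟨Or.inl h1, fun h => huX (h ▸ h1), h2⟩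
          · exact ⟨Or.inr h1, h2, h3⟩
      rw [hnn, ih hnd' (X.filter (fun w => ¬ G.Adj u w))
        (fun x hx y hy => hX x (Finset.mem_filter.mp hx).1 y (Finset.mem_filter.mp hy).1)
        (fun x hx => hdis' x (Finset.mem_filter.mp hx).1)]
      unfold wsum
      rw [List.filter_map, List.map_map, List.filter_filter]
      have hfil : (inds G us).filter (fun A => Nat.beq (Nat.land A (B ||| m)) 0) =
          (inds G us).filter (fun a => (((fun A => Nat.beq (Nat.land A B) 0) ∘ fun A => A + 2 ^ s) a
            && Nat.beq (Nat.land a m) 0)) := by
        apply List.filter_congr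
        intro A hA
        rw [Bool.eq_iff_iff]
        simp only [Function.comp, Bool.and_eq_true, Nat.beq_eq]
        rw [hB A hA]
        simp only [hBs', and_true]
        rw [land_eq_zero_iff, land_eq_zero_iff, land_eq_zero_iff]
        constructor
        · intro h
          constructor
          · intro i hi; exact h i ⟨hi.1, by rw [Nat.testBit_or]; simp [hi.2]⟩
          · intro i hi; exact h i ⟨hi.1, by rw [Nat.testBit_or]; simp [hi.2]⟩
        · rintro ⟨h1, h2⟩ i ⟨hi1, hi2⟩
          rw [Nat.testBit_or, Bool.or_eq_true] at hi2
          rcases hi2 with hi2 | hi2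
          · exact h1 i ⟨hi1, hi2⟩
          · exact h2 i ⟨hi1, hi2⟩
      rw [hfil]
      congr 1
      apply List.map_congr_left
      intro A hA
      have hA' := (List.mem_filter.mp hA).1
      simp only [Function.comp]
      congr 2
      ext x
      simp only [Finset.mem_filter, hhigh A hA' x]
      tauto

end Pool.Agent.Lib.MP_1f0029_co
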