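import Mathlib
import Pool.Agent.Lib.MP_1f0029_co.Mask

/-!
# The verified search

`search` explores all possible ways of building a graph on 16 vertices by adding vertices one
at a time to an independent set, keeping only the numbers of outer vertices with each given
neighbourhood in the cover. Its soundness is `search_spec`.
-/

set_option linter.unusedSectionVars false

namespace Pool.Agent.Lib.MP_1f0029_co

open Finset

/-! ### Definitions of the search -/

/-- Force the evaluation of a natural number. -/
def forceN {α : Type} (n : ℕ) (k : ℕ → α) : α :=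
  match n with
  | 0 => k 0
  | m+1 => k (m+1)

/-- The sum of `2 ^ e` over the entries `(A, e)`, with an accumulator. -/
def tot : List (ℕ × ℕ) → ℕ → ℕ
  | [], a => a
  | (_, e) :: W, a => forceN (a + 2 ^ e) fun a' => tot W a'

/-- Subtract 1 from the exponents of those `A` disjoint from `p`. -/
def dec1 (p : ℕ) : List (ℕ × ℕ) → (List (ℕ × ℕ) → Bool) → Bool
  | [], k => k []
  | (A, e) :: W, k =>
     forceN (bif Nat.beq (Nat.land A p) 0 then e - 1 else e) fun e' =>
       dec1 p W fun W' => k ((A, e') :: W')

/-- Loop over the number `c` of vertices of one class adjacent to the new vertex. -/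
def loopC (ok : ℕ → Bool) (p : ℕ) (k : ℕ → List (ℕ × ℕ) → Bool) :
    (fuel c : ℕ) → List (ℕ × ℕ) → Bool
  | 0, c, W => bif ok (tot W 0) then k c W else true
  | f+1, c, W =>
    bif ok (tot W 0) then (k c W && dec1 p W fun W' => loopC ok p k f (c+1) W') else true

/-- Enumerate the numbers of neighbours of the new vertex in all classes. -/
def enum (ok : ℕ → Bool) (b : ℕ) (k : List (ℕ × ℕ) → ℕ → Bool) :
    List (ℕ × ℕ) → List (ℕ × ℕ) → List (ℕ × ℕ) → Bool
  | [], acc, W => forceN (tot W 0) fun T => k acc T
  | (p, n) :: rem, acc, W =>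
    loopC ok p (fun c W' => enum ok b k rem
      (bif Nat.beq c 0 then (p, n) :: acc else
       bif Nat.beq c n then (p + b, n) :: acc else (p, n - c) :: (p + b, c) :: acc) W') n 0 W

/-- Upper bound for the final count after `r` more vertices. -/
def ub : (r I T : ℕ) → ℕ
  | 0, I, _ => I
  | r+1, I, T => forceN (min (2*T) (I/2)) fun T' => forceN (I+T') fun I' => ub r I' T'

/-- Bisection for the least useful value of the next increment (its output is re-checked). -/
def findL (K r I : ℕ) : (fuel lo hi : ℕ) → ℕ
  | 0, lo, _ => lo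
  | f+1, lo, hi => forceN ((lo+hi)/2) fun m =>
      bif Nat.ble K (ub r (I+m) m) then findL K r I f lo m else findL K r I f (m+1) hi

/-- Keep the entries with `A` disjoint from `B`. -/
def filt (B : ℕ) : List (ℕ × ℕ) → (List (ℕ × ℕ))
  | [] => []
  | (A, e) :: W => bif Nat.beq (Nat.land A B) 0 then (A, e) :: filt B W else filt B W

/-- The number of outer vertices with no neighbour in `A`, computed from the classes. -/
def expo (A : ℕ) : List (ℕ × ℕ) → ℕ → ℕ
  | [], a => a
  | (p, n) :: cls, a => expo A cls (bif Nat.beq (Nat.land A p) 0 then a + n else a)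

/-- Build the list of entries `(A, e)`. -/
def mkW (z : ℕ) (cls : List (ℕ × ℕ)) : List ℕ → (List (ℕ × ℕ) → Bool) → Bool
  | [], k => k []
  | A :: ind, k => forceN A fun A' => forceN (expo A cls z) fun e =>
      mkW z cls ind fun W => k ((A', e) :: W)

/-- Check `f` for all numbers below `n`. -/
def allB (f : ℕ → Bool) : ℕ → Bool
  | 0 => true
  | n+1 => f n && allB f n

/-- The search. -/
def search (K : ℕ) (fin : List ℕ → List (ℕ × ℕ) → Bool) :
    (r s : ℕ) → (bs : List ℕ) → (ind : List ℕ) → (z : ℕ) → (cls : List (ℕ × ℕ)) →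
      (I T : ℕ) → Bool
  | 0, _, bs, _, _, cls, I, _ => (!Nat.beq I K) || fin bs cls
  | r+1, s, bs, ind, z, cls, I, T =>
    bif !(Nat.ble K (ub (r+1) I T)) then true
    else bif Nat.ble K I then true
    else bif Nat.beq r 0 && (!(Nat.ble ((K - I) * 2^z) I) || !(Nat.ble (2*(K-I)) I) ||
        !(Nat.ble (K-I) (2*T))) then true
    else
      forceN (findL K r I 14 0 I) fun L =>
      bif !(Nat.beq L 0) && Nat.ble K (ub r (I + (L - 1)) (L-1)) then false else
      forceN (min (2*T) (I/2)) fun U =>
      mkW z cls ind fun WA =>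
      allB (fun B =>
        loopC (fun T' => Nat.ble L T') 0 (fun c0 W' =>
          bif Nat.beq r 0 && !(Nat.beq c0 z) then true else
          enum (fun T' => Nat.ble L T' &&
              (!(Nat.beq r 1) || Nat.ble ((K - (I+T')) * 2^(z - c0)) (I+T'))) (2^s)
            (fun acc T' => bif Nat.ble T' U && Nat.ble (I+T') K &&
                (!(Nat.beq r 0) || Nat.beq (I+T') K) then
                search K fin r (s+1) (B :: bs) (newInd B (2^s) ind) (z - c0) acc (I+T') T'
                else true) cls
              (bif Nat.beq c0 0 then [] else [(2^s, c0)]) W') z 0 (filt B WA)) (2^s)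

/-! ### Specifications of the helper functions -/

@[simp] lemma forceN_eq {α : Type} (n : ℕ) (k : ℕ → α) : forceN n k = k n := by
  cases n <;> rfl

/-- Sum of `2 ^ e`. -/
def totl (W : List (ℕ × ℕ)) : ℕ := (W.map (fun q => 2 ^ q.2)).sum

lemma tot_eq (W : List (ℕ × ℕ)) : ∀ a, tot W a = a + totl W := by
  induction W with
  | nil => intro a; simp [tot, totl]
  | cons q W ih =>
    intro a
    obtain ⟨A, e⟩ := q
    simp only [tot, forceN_eq, ih, totl, List.map_cons, List.sum_cons]
    omega

/-- Decrease the exponents of the `A` disjoint from `p` by `j`. -/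
def decj (p j : ℕ) (W : List (ℕ × ℕ)) : List (ℕ × ℕ) :=
  W.map (fun q => (q.1, if Nat.land q.1 p = 0 then q.2 - j else q.2))

lemma beq_iff (a b : ℕ) : Nat.beq a b = true ↔ a = b := Nat.beq_eq ▸ Iff.rfl

lemma ble_iff (a b : ℕ) : Nat.ble a b = true ↔ a ≤ b := Nat.ble_eq ▸ Iff.rfl

lemma dec1_eq (p : ℕ) (W : List (ℕ × ℕ)) : ∀ k, dec1 p W k = k (decj p 1 W) := by
  induction W with
  | nil => intro k; simp [dec1, decj]
  | cons q W ih =>
    intro k
    obtain ⟨A, e⟩ := q
    simp only [dec1, forceN_eq, ih, decj, List.map_cons]
    congr 3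
    by_cases h : Nat.land A p = 0
    · simp [h]
    · have : Nat.beq (Nat.land A p) 0 = false := by
        rw [Bool.eq_false_iff]; intro hh; exact h ((beq_iff _ _).mp hh)
      simp [this, h]

lemma decj_zero (p : ℕ) (W : List (ℕ × ℕ)) : decj p 0 W = W := by
  unfold decj
  conv_rhs => rw [← List.map_id W]
  apply List.map_congr_left
  intro q _
  simp

lemma decj_decj (p j : ℕ) (W : List (ℕ × ℕ)) : decj p j (decj p 1 W) = decj p (j+1) W := by
  unfold decj
  rw [List.map_map]
  apply List.map_congr_left
  intro q _
  simp only [Function.comp]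
  split_ifs with h
  · congr 1; omega
  · rfl

lemma totl_decj_le (p j : ℕ) (W : List (ℕ × ℕ)) : totl (decj p j W) ≤ totl W := by
  unfold totl decj
  rw [List.map_map]
  apply List.sum_le_sum
  intro q _
  simp only [Function.comp]
  apply Nat.pow_le_pow_right (by norm_num)
  split_ifs <;> omega

lemma loopC_spec (ok : ℕ → Bool) (hok : ∀ a b, a ≤ b → ok a = true → ok b = true) (p : ℕ)
    (k : ℕ → List (ℕ × ℕ) → Bool) : ∀ (f c : ℕ) (W : List (ℕ × ℕ)) (j : ℕ), j ≤ f →
    loopC ok p k f c W = true → ok (totl (decj p j W)) = true → k (c + j) (decj p j W) = true := by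
  intro f
  induction f with
  | zero =>
    intro c W j hj h hokj
    have : j = 0 := by omega
    subst this
    rw [decj_zero] at hokj ⊢
    simp only [loopC, tot_eq, Nat.zero_add, hokj, cond_true] at h
    simpa using h
  | succ f ih =>
    intro c W j hj h hokj
    have hW : ok (totl W) = true := hok _ _ (totl_decj_le p j W) hokj
    simp only [loopC, tot_eq, Nat.zero_add, hW, cond_true, dec1_eq, Bool.and_eq_true] at h
    cases j with
    | zero => rw [decj_zero]; simpa using h.1
    | succ j =>
      have := ih (c+1) (decj p 1 W) j (by omega) h.2 (by rw [decj_decj]; exact hokj)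
      rw [decj_decj] at this
      rwa [show c + (j+1) = c + 1 + j by omega]

lemma ub_mono (r : ℕ) : ∀ {I I' T T' : ℕ}, I ≤ I' → T ≤ T' → ub r I T ≤ ub r I' T' := by
  induction r with
  | zero => intro I I' T T' h _; simpa [ub] using h
  | succ r ih =>
    intro I I' T T' h1 h2
    simp only [ub, forceN_eq]
    have h3 : min (2*T) (I/2) ≤ min (2*T') (I'/2) :=
      min_le_min (by omega) (Nat.div_le_div_right h1)
    exact ih (by omega) h3

lemma filt_eq (B : ℕ) (W : List (ℕ × ℕ)) :
    filt B W = W.filter (fun q => Nat.beq (Nat.land q.1 B) 0) := by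
  induction W with
  | nil => rfl
  | cons q W ih =>
    obtain ⟨A, e⟩ := q
    simp only [filt, List.filter_cons, ih]
    cases Nat.beq (Nat.land A B) 0 <;> simp

lemma mkW_eq (z : ℕ) (cls : List (ℕ × ℕ)) (ind : List ℕ) : ∀ k,
    mkW z cls ind k = k (ind.map (fun A => (A, expo A cls z))) := by
  induction ind with
  | nil => intro k; rfl
  | cons A ind ih => intro k; simp [mkW, ih]

lemma allB_spec (f : ℕ → Bool) : ∀ (n : ℕ), allB f n = true → ∀ B < n, f B = true := by
  intro n
  induction n with
  | zero => intro _ B hB; omega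
  | succ n ih =>
    intro h B hB
    simp only [allB, Bool.and_eq_true] at h
    by_cases hBn : B = n
    · rw [hBn]; exact h.1
    · exact ih h.2 B (by omega)

/-! ### Semantics -/

variable {V : Type} [DecidableEq V] (G : SimpleGraph V) [DecidableRel G.Adj]

/-- `cls` describes a partition of `X` into classes of vertices with equal masks. -/
def Part (us : List V) : List (ℕ × ℕ) → Finset V → Prop
  | [], X => X = ∅
  | (p, n) :: cls, X => ∃ Y Z : Finset V, Y ∪ Z = X ∧ Disjoint Y Z ∧ Y.card = n ∧
      (∀ y ∈ Y, mask G us y = p) ∧ Part us cls Z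

lemma expo_eq (us : List V) (A : ℕ) (cls : List (ℕ × ℕ)) : ∀ (X : Finset V) (a : ℕ),
    Part G us cls X →
    expo A cls a = a + (X.filter (fun x => Nat.land A (mask G us x) = 0)).card := by
  induction cls with
  | nil =>
    intro X a h
    simp only [Part] at h
    simp [expo, h]
  | cons q cls ih =>
    intro X a h
    obtain ⟨p, n⟩ := q
    obtain ⟨Y, Z, hYZ, hd, hn, hp, hZ⟩ := h
    simp only [expo]
    rw [ih Z _ hZ, ← hYZ, Finset.filter_union, Finset.card_union_of_disjoint
      (Finset.disjoint_filter_filter hd)]
    by_cases hA : Nat.land A p = 0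
    · have h1 : Y.filter (fun x => Nat.land A (mask G us x) = 0) = Y := by
        apply Finset.filter_true_of_mem
        intro y hy
        rw [hp y hy]; exact hA
      rw [h1, hn, hA]
      simp only [Nat.beq_refl, cond_true]
      omega
    · have h1 : Y.filter (fun x => Nat.land A (mask G us x) = 0) = ∅ := by
        apply Finset.filter_false_of_mem
        intro y hy
        rw [hp y hy]; exact hA
      have h2 : Nat.beq (Nat.land A p) 0 = false := by
        rw [Bool.eq_false_iff]; intro hh; exact hA ((beq_iff _ _).mp hh)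
      rw [h1, h2]
      simp

/-- The final value of the increment when the outer vertices are `R`. -/
def finT (us : List V) (u : V) (ind' : List ℕ) (R : Finset V) : ℕ :=
  totl (ind'.map fun A => (A, (R.filter (fun x => Nat.land A (mask G us x) = 0 ∧ ¬ G.Adj u x)).card))

lemma enum_spec (ok : ℕ → Bool) (hok : ∀ a b, a ≤ b → ok a = true → ok b = true)
    (k : List (ℕ × ℕ) → ℕ → Bool) (us : List V) (u : V) (ind' : List ℕ) :
    ∀ (rem acc : List (ℕ × ℕ)) (X Y Q : Finset V), Disjoint X Y → Disjoint X Q → Disjoint Y Q →
    Part G us rem X → Part G (u :: us) acc Y →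
    ok (finT G us u ind' (X ∪ Y ∪ Q)) = true →
    enum ok (2 ^ us.length) k rem acc (ind'.map fun A => (A,
      (X.filter (fun x => Nat.land A (mask G us x) = 0)).card +
      ((Y ∪ Q).filter (fun x => Nat.land A (mask G us x) = 0 ∧ ¬ G.Adj u x)).card)) = true →
    ∃ acc', Part G (u :: us) acc' (X ∪ Y) ∧ k acc' (finT G us u ind' (X ∪ Y ∪ Q)) = true := by
  intro rem
  induction rem with
  | nil =>
    intro acc X Y Q _ _ _ hX hY hokT h
    simp only [Part] at hX
    subst hX
    refine ⟨acc, by simpa using hY, ?_⟩
    simp only [enum, forceN_eq, tot_eq, Nat.zero_add, Finset.filter_empty, Finset.card_empty] at h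
    simpa [finT] using h
  | cons q rem ih =>
    intro acc X Y Q hXY hXQ hYQ hX hY hokT h
    obtain ⟨p, n⟩ := q
    obtain ⟨Y1, Z, hYZ, hd, hn, hp, hZ⟩ := hX
    have hY1X : Y1 ⊆ X := by rw [← hYZ]; exact Finset.subset_union_left
    have hZX : Z ⊆ X := by rw [← hYZ]; exact Finset.subset_union_right
    have hY1Y : Disjoint Y1 Y := hXY.mono_left hY1X
    have hZY : Disjoint Z Y := hXY.mono_left hZX
    have hY1Q : Disjoint Y1 Q := hXQ.mono_left hY1X
    have hZQ : Disjoint Z Q := hXQ.mono_left hZX
    set c := (Y1.filter (fun y => G.Adj u y)).card with hc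
    have hcn : c ≤ n := by rw [← hn]; exact Finset.card_filter_le _ _
    have hsplit : (Y1.filter (fun y => ¬ G.Adj u y)).card = n - c := by
      have := Finset.card_filter_add_card_filter_not (s := Y1) (p := fun y => G.Adj u y)
      omega
    -- the weights after processing the class
    have hW : decj p c (ind'.map fun A => (A,
      (X.filter (fun x => Nat.land A (mask G us x) = 0)).card +
      ((Y ∪ Q).filter (fun x => Nat.land A (mask G us x) = 0 ∧ ¬ G.Adj u x)).card)) =
      (ind'.map fun A => (A,
      (Z.filter (fun x => Nat.land A (mask G us x) = 0)).card +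
      (((Y ∪ Y1) ∪ Q).filter (fun x => Nat.land A (mask G us x) = 0 ∧ ¬ G.Adj u x)).card)) := by
      unfold decj
      rw [List.map_map]
      apply List.map_congr_left
      intro A _
      simp only [Function.comp]
      congr 1
      have e1 : (X.filter (fun x => Nat.land A (mask G us x) = 0)).card =
          (Y1.filter (fun x => Nat.land A (mask G us x) = 0)).card +
          (Z.filter (fun x => Nat.land A (mask G us x) = 0)).card := by
        rw [← hYZ, Finset.filter_union, Finset.card_union_of_disjoint
          (Finset.disjoint_filter_filter hd)]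
      have e2 : (((Y ∪ Y1) ∪ Q).filter (fun x => Nat.land A (mask G us x) = 0 ∧ ¬ G.Adj u x)).card
          = ((Y ∪ Q).filter (fun x => Nat.land A (mask G us x) = 0 ∧ ¬ G.Adj u x)).card +
            (Y1.filter (fun x => Nat.land A (mask G us x) = 0 ∧ ¬ G.Adj u x)).card := by
        have : (Y ∪ Y1) ∪ Q = (Y ∪ Q) ∪ Y1 := by
          ext w; simp only [Finset.mem_union]; tauto
        rw [this, Finset.filter_union, Finset.card_union_of_disjoint]
        apply Finset.disjoint_filter_filter
        rw [Finset.disjoint_union_left]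
        exact ⟨hY1Y.symm, hY1Q.symm⟩
      rw [e1, e2]
      by_cases hA : Nat.land A p = 0
      · have h1 : Y1.filter (fun x => Nat.land A (mask G us x) = 0) = Y1 := by
          apply Finset.filter_true_of_mem
          intro y hy; rw [hp y hy]; exact hA
        have h2 : Y1.filter (fun x => Nat.land A (mask G us x) = 0 ∧ ¬ G.Adj u x) =
            Y1.filter (fun y => ¬ G.Adj u y) := by
          apply Finset.filter_congr
          intro y hy; rw [hp y hy]
          exact ⟨fun h => h.2, fun h => ⟨hA, h⟩⟩
        rw [h1, h2, hsplit, hn, if_pos hA]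
        omega
      · have h1 : Y1.filter (fun x => Nat.land A (mask G us x) = 0) = ∅ := by
          apply Finset.filter_false_of_mem
          intro y hy; rw [hp y hy]; exact hA
        have h2 : Y1.filter (fun x => Nat.land A (mask G us x) = 0 ∧ ¬ G.Adj u x) = ∅ := by
          apply Finset.filter_false_of_mem
          intro y hy; rw [hp y hy]
          exact fun h => hA h.1
        rw [h1, h2, if_neg hA]
        simp
    have hset : X ∪ Y ∪ Q = Z ∪ (Y ∪ Y1) ∪ Q := by
      rw [← hYZ]; ext w; simp only [Finset.mem_union]; tauto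
    have hle : finT G us u ind' (X ∪ Y ∪ Q) ≤ totl (ind'.map fun A => (A,
      (Z.filter (fun x => Nat.land A (mask G us x) = 0)).card +
      (((Y ∪ Y1) ∪ Q).filter (fun x => Nat.land A (mask G us x) = 0 ∧ ¬ G.Adj u x)).card)) := by
      unfold finT totl
      rw [List.map_map, List.map_map]
      apply List.sum_le_sum
      intro A _
      simp only [Function.comp]
      apply Nat.pow_le_pow_right (by norm_num)
      have : X ∪ Y ∪ Q = Z ∪ ((Y ∪ Y1) ∪ Q) := by
        rw [hset]; ext w; simp only [Finset.mem_union]; tauto
      rw [this, Finset.filter_union]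
      refine (Finset.card_union_le _ _).trans ?_
      apply Nat.add_le_add_right
      apply Finset.card_le_card
      intro x hx
      simp only [Finset.mem_filter] at hx ⊢
      exact ⟨hx.1, hx.2.1⟩
    simp only [enum] at h
    have h2 := loopC_spec ok hok p _ n 0 _ c hcn h (by rw [hW]; exact hok _ _ hle hokT)
    rw [hW, Nat.zero_add] at h2
    -- the new accumulated partition
    have hlast : ∀ y ∈ Y1, mask G (u :: us) y = if G.Adj u y then p + 2 ^ us.length else p := by
      intro y hy
      simp only [mask, hp y hy]
      split_ifs <;> simp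
    have hpart : Part G (u :: us)
        (bif Nat.beq c 0 then (p, n) :: acc else
         bif Nat.beq c n then (p + 2 ^ us.length, n) :: acc
         else (p, n - c) :: (p + 2 ^ us.length, c) :: acc) (Y ∪ Y1) := by
      have hadjempty : c = 0 → ∀ y ∈ Y1, ¬ G.Adj u y := by
        intro h0 y hy hadj
        have := Finset.card_eq_zero.mp (hc ▸ h0 : (Y1.filter (fun y => G.Adj u y)).card = 0)
        have hmem : y ∈ Y1.filter (fun y => G.Adj u y) := Finset.mem_filter.mpr ⟨hy, hadj⟩
        rw [this] at hmem
        simp at hmem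
      by_cases hc0 : c = 0
      · rw [(beq_iff c 0).mpr hc0, cond_true]
        refine ⟨Y1, Y, by rw [Finset.union_comm], hY1Y, hn, ?_, hY⟩
        intro y hy
        rw [hlast y hy, if_neg (hadjempty hc0 y hy)]
      · have hb0 : Nat.beq c 0 = false := by
          rw [Bool.eq_false_iff]; intro hh; exact hc0 ((beq_iff _ _).mp hh)
        rw [hb0, cond_false]
        by_cases hcn' : c = n
        · rw [(beq_iff c n).mpr hcn', cond_true]
          refine ⟨Y1, Y, by rw [Finset.union_comm], hY1Y, hn, ?_, hY⟩
          intro y hy
          have hall : Y1.filter (fun y => G.Adj u y) = Y1 := by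
            apply Finset.eq_of_subset_of_card_le (Finset.filter_subset _ _)
            rw [← hc, hcn', hn]
          have : y ∈ Y1.filter (fun y => G.Adj u y) := by rw [hall]; exact hy
          rw [hlast y hy, if_pos (Finset.mem_filter.mp this).2]
        · have hbn : Nat.beq c n = false := by
            rw [Bool.eq_false_iff]; intro hh; exact hcn' ((beq_iff _ _).mp hh)
          rw [hbn, cond_false]
          refine ⟨Y1.filter (fun y => ¬ G.Adj u y), Y1.filter (fun y => G.Adj u y) ∪ Y, ?_, ?_,
            hsplit, ?_, ?_⟩
          · ext w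
            simp only [Finset.mem_union, Finset.mem_filter]
            tauto
          · rw [Finset.disjoint_union_right]
            refine ⟨?_, hY1Y.mono_left (Finset.filter_subset _ _)⟩
            rw [Finset.disjoint_left]
            intro w hw hw'
            exact (Finset.mem_filter.mp hw).2 (Finset.mem_filter.mp hw').2
          · intro y hy
            rw [hlast y (Finset.mem_filter.mp hy).1, if_neg (Finset.mem_filter.mp hy).2]
          · refine ⟨Y1.filter (fun y => G.Adj u y), Y, rfl,
              hY1Y.mono_left (Finset.filter_subset _ _), rfl, ?_, hY⟩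
            intro y hy
            rw [hlast y (Finset.mem_filter.mp hy).1, if_pos (Finset.mem_filter.mp hy).2]
    have hZYY1 : Disjoint Z (Y ∪ Y1) := by
      rw [Finset.disjoint_union_right]; exact ⟨hZY, hd.symm⟩
    have hYY1Q : Disjoint (Y ∪ Y1) Q := by
      rw [Finset.disjoint_union_left]; exact ⟨hYQ, hY1Q⟩
    obtain ⟨acc', hacc', hk⟩ := ih _ Z (Y ∪ Y1) Q hZYY1 hZQ hYY1Q hZ hpart
      (by rw [← hset]; exact hokT) h2
    refine ⟨acc', ?_, ?_⟩
    · have : X ∪ Y = Z ∪ (Y ∪ Y1) := by
        rw [← hYZ]; ext w; simp only [Finset.mem_union]; tauto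
      rw [this]; exact hacc'
    · rw [hset]; exact hk

end Pool.Agent.Lib.MP_1f0029_co
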