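import Mathlib
import Pool.Agent.Lib.MP_1f0029_co.Search

/-!
# Soundness of the search
-/

set_option linter.unusedSectionVars false

namespace Pool.Agent.Lib.MP_1f0029_co

open Finset

variable {V : Type} [DecidableEq V] (G : SimpleGraph V) [DecidableRel G.Adj]

/-- `Path U T rest W`: adding the vertices of `rest` to `U` one after the other gives `W`, and
the increments satisfy the two growth bounds; `T` is the last increment before `rest`. -/
def Path : Finset V → ℕ → List V → Finset V → Prop
  | U, _, [], W => U = W
  | U, T, v :: rest, W => v ∉ U ∧ cnt G (nn G U v) ≤ 2 * T ∧ 2 * cnt G (nn G U v) ≤ cnt G U ∧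
      Path (insert v U) (cnt G (nn G U v)) rest W

/-- The last increment along a path. -/
def lastT : Finset V → ℕ → List V → ℕ
  | _, T, [] => T
  | U, _, v :: rest => lastT (insert v U) (cnt G (nn G U v)) rest

lemma path_append (rest : List V) : ∀ (U W : Finset V) (T : ℕ) (w : V), Path G U T rest W →
    w ∉ W → cnt G (nn G W w) ≤ 2 * lastT G U T rest → 2 * cnt G (nn G W w) ≤ cnt G W →
    Path G U T (rest ++ [w]) (insert w W) ∧
      lastT G U T (rest ++ [w]) = cnt G (nn G W w) := by
  induction rest with
  | nil =>
    intro U W T w h hw h1 h2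
    simp only [Path] at h
    subst h
    simp only [lastT] at h1
    exact ⟨⟨hw, h1, h2, rfl⟩, rfl⟩
  | cons v rest ih =>
    intro U W T w h hw h1 h2
    obtain ⟨ha, hb, hc, hd⟩ := h
    obtain ⟨i1, i2⟩ := ih (insert v U) W (cnt G (nn G U v)) w hd hw h1 h2
    exact ⟨⟨ha, hb, hc, i1⟩, i2⟩

lemma exists_path : ∀ (n : ℕ) (W : Finset V), W.card = n →
    ∃ (O : Finset V) (rest : List V), Indep G O ∧ Path G O (cnt G O) rest W ∧
      rest.length + O.card = n ∧
      (lastT G O (cnt G O) rest = cnt G W ∨ ∃ v ∈ W, lastT G O (cnt G O) rest = cnt G (nn G W v)) := by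
  intro n
  induction n with
  | zero =>
    intro W hW
    refine ⟨W, [], ?_, rfl, by simpa using hW, Or.inl rfl⟩
    have := Finset.card_eq_zero.mp hW
    subst this
    intro x hx
    simp at hx
  | succ n ih =>
    intro W hW
    by_cases hind : Indep G W
    · exact ⟨W, [], hind, rfl, by simpa using hW, Or.inl rfl⟩
    · obtain ⟨v, hv, hmin, hhalf⟩ := exists_min G hind
      have hcard : (W.erase v).card = n := by
        rw [Finset.card_erase_of_mem hv, hW]; rfl
      obtain ⟨O, rest, hO, hP, hlen, hlast⟩ := ih (W.erase v) hcard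
      have hnn : nn G (W.erase v) v = nn G W v := nn_erase_self G W v
      have hT : cnt G (nn G (W.erase v) v) ≤ 2 * lastT G O (cnt G O) rest := by
        rw [hnn]
        rcases hlast with h | ⟨v', hv', h⟩
        · rw [h]
          have := cnt_nn_le_erase G W v
          omega
        · rw [h]
          have h1 := hmin v' (Finset.mem_of_mem_erase hv')
          have h2 := cnt_le_two_erase G (nn G W v') v
          have h3 : (nn G W v').erase v ⊆ nn G (W.erase v) v' := by
            intro w hw
            rw [Finset.mem_erase, mem_nn] at hw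
            rw [mem_nn, Finset.mem_erase]
            exact ⟨⟨hw.1, hw.2.1⟩, hw.2.2⟩
          have h4 := cnt_mono G h3
          omega
      obtain ⟨i1, i2⟩ := path_append G rest O (W.erase v) (cnt G O) v hP
        (Finset.notMem_erase v W) hT (by rw [hnn]; exact hhalf)
      rw [Finset.insert_erase hv] at i1
      refine ⟨O, rest ++ [v], hO, i1, ?_, Or.inr ⟨v, hv, ?_⟩⟩
      · simp only [List.length_append, List.length_cons, List.length_nil]
        omega
      · rw [i2, hnn]

lemma cnt_lt_insert {U : Finset V} {v : V} (hv : v ∉ U) : cnt G U < cnt G (insert v U) := by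
  rw [cnt_insert G hv]
  have := cnt_pos G (nn G U v)
  omega

lemma path_le (rest : List V) : ∀ (U W : Finset V) (T : ℕ), Path G U T rest W →
    cnt G U ≤ cnt G W := by
  induction rest with
  | nil => intro U W T h; simp only [Path] at h; rw [h]
  | cons v rest ih =>
    intro U W T h
    obtain ⟨ha, _, _, hd⟩ := h
    exact (cnt_lt_insert G ha).le.trans (ih _ _ _ hd)

lemma path_ub (rest : List V) : ∀ (U W : Finset V) (T : ℕ), Path G U T rest W →
    cnt G W ≤ ub rest.length (cnt G U) T := by
  induction rest with
  | nil => intro U W T h; simp only [Path] at h; rw [h]; simp [ub]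
  | cons v rest ih =>
    intro U W T h
    obtain ⟨ha, hb, hc, hd⟩ := h
    have h1 := ih _ _ _ hd
    simp only [List.length_cons, ub, forceN_eq]
    refine h1.trans ?_
    have h2 : cnt G (nn G U v) ≤ min (2 * T) (cnt G U / 2) := by
      apply le_min hb; omega
    apply ub_mono
    · rw [cnt_insert G ha]; omega
    · exact h2

/-- The masks of the vertices of `us`, each relative to the earlier ones. -/
def bsOf : List V → List ℕ
  | [] => []
  | u :: us => mask G us u :: bsOf us

lemma mem_cov_zero (us : List V) (O : Finset V) : O ∪ us.toFinset = O ∪ cov us 0 := by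
  rw [cov_zero]

/-- The increment when adding `v` to `O ∪ us`. -/
lemma cnt_nn_eq (us : List V) (hnd : us.Nodup) (O : Finset V) (hO : Indep G O)
    (hdis : ∀ x ∈ O, x ∉ us) (v : V) (hv : v ∉ O ∪ us.toFinset) :
    cnt G (nn G (O ∪ us.toFinset) v) =
      finT G us v ((inds G us).filter (fun A => Nat.beq (Nat.land A (mask G us v)) 0)) O := by
  have hvus : v ∉ us := fun h => hv (Finset.mem_union_right _ (List.mem_toFinset.mpr h))
  have hvO : v ∉ O := fun h => hv (Finset.mem_union_left _ h)
  have h1 : nn G (O ∪ us.toFinset) v =
      O.filter (fun w => ¬ G.Adj v w) ∪ cov us (mask G us v) := by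
    have h0 := cov_nn G us hnd v hvus 0
    rw [Nat.zero_or, cov_zero] at h0
    rw [← h0]
    ext w
    simp only [mem_nn, Finset.mem_union, Finset.mem_filter]
    constructor
    · rintro ⟨h1 | h1, h2, h3⟩
      · exact Or.inl ⟨h1, h3⟩
      · exact Or.inr ⟨h1, h2, h3⟩
    · rintro (⟨h1, h2⟩ | ⟨h1, h2, h3⟩)
      · exact ⟨Or.inl h1, fun h => hvO (h ▸ h1), h2⟩
      · exact ⟨Or.inr h1, h2, h3⟩
  rw [h1, cnt_cov G us hnd (O.filter (fun w => ¬ G.Adj v w))
    (fun x hx y hy => hO x (Finset.mem_filter.mp hx).1 y (Finset.mem_filter.mp hy).1)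
    (fun x hx => hdis x (Finset.mem_filter.mp hx).1)]
  unfold wsum finT totl
  rw [List.map_map]
  congr 1
  apply List.map_congr_left
  intro A _
  simp only [Function.comp]
  congr 2
  ext x
  simp only [Finset.mem_filter]
  tauto

lemma mask_eq_zero (us : List V) (z : V) : mask G us z = 0 → ∀ w ∈ us, ¬ G.Adj w z := by
  induction us with
  | nil => intro _ w hw; simp at hw
  | cons a us ih =>
    intro h0 w hw hadj
    simp only [mask] at h0
    rcases List.mem_cons.mp hw with rfl | hw'
    · rw [if_pos hadj] at h0
      have : 0 < 2 ^ us.length := by positivity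
      omega
    · exact ih (by omega) w hw' hadj

set_option maxHeartbeats 2000000 in
theorem search_spec (K : ℕ) (fin : List ℕ → List (ℕ × ℕ) → Bool) (W : Finset V)
    (hK : cnt G W = K) (hiso : ∀ x ∈ W, ∃ y ∈ W, G.Adj x y) :
    ∀ (r : ℕ) (us : List V) (O Z X : Finset V) (cls : List (ℕ × ℕ)) (T : ℕ)
      (rest : List V), rest.length = r → Indep G O → us.Nodup → (∀ x ∈ O, x ∉ us) →
      Z ∪ X = O → Disjoint Z X → (∀ z ∈ Z, mask G us z = 0) → Part G us cls X →
      Path G (O ∪ us.toFinset) T rest W →
      search K fin r us.length (bsOf G us) (inds G us) Z.card cls (cnt G (O ∪ us.toFinset)) T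
        = true →
      ∃ (us' : List V) (cls' : List (ℕ × ℕ)) (X' : Finset V), us'.Nodup ∧ (∀ x ∈ O, x ∉ us') ∧
        X' ⊆ O ∧ Part G us' cls' X' ∧ fin (bsOf G us') cls' = true := by
  intro r
  induction r with
  | zero =>
    intro us O Z X cls T rest hlen hO hnd hdis hZX _ _ hpart hpath hs
    have hrest : rest = [] := List.length_eq_zero_iff.mp hlen
    subst hrest
    simp only [Path] at hpath
    simp only [search, Bool.or_eq_true, Bool.not_eq_true', hpath, hK] at hs
    rcases hs with hs | hs
    · rw [(beq_iff K K).mpr rfl] at hs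
      exact absurd hs (by simp)
    · exact ⟨us, cls, X, hnd, hdis, by rw [← hZX]; exact Finset.subset_union_right, hpart, hs⟩
  | succ r ih =>
    intro us O Z X cls T rest hlen hO hnd hdis hZX hdZX hmz hpart hpath hs
    obtain ⟨v, rest', rfl⟩ : ∃ v rest', rest = v :: rest' := by
      cases rest with
      | nil => simp at hlen
      | cons v rest' => exact ⟨v, rest', rfl⟩
    have hlen' : rest'.length = r := by simpa using hlen
    have hub := path_ub G _ _ _ _ hpath
    obtain ⟨hvU, hT2, hThalf, hpath'⟩ := hpath
    set U := O ∪ us.toFinset with hU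
    set I := cnt G U with hI
    set T' := cnt G (nn G U v) with hT'
    have hvus : v ∉ us := fun h => hvU (Finset.mem_union_right _ (List.mem_toFinset.mpr h))
    have hvO : v ∉ O := fun h => hvU (Finset.mem_union_left _ h)
    have hZO : Z ⊆ O := by rw [← hZX]; exact Finset.subset_union_left
    have hXO : X ⊆ O := by rw [← hZX]; exact Finset.subset_union_right
    have hIT : cnt G (insert v U) = I + T' := cnt_insert G hvU
    have hlt : I < K := by
      rw [← hK]
      exact (cnt_lt_insert G hvU).trans_le (path_le G _ _ _ _ hpath')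
    have hle : I + T' ≤ K := by
      rw [← hK, ← hIT]; exact path_le G _ _ _ _ hpath'
    have hub' : K ≤ ub r (I + T') T' := by
      have := path_ub G _ _ _ _ hpath'
      rw [hlen', hIT, hK] at this
      exact this
    -- isolated vertices are isolated
    have hZiso : ∀ z ∈ Z, ∀ w ∈ U, ¬ G.Adj z w := by
      intro z hz w hw hadj
      rcases Finset.mem_union.mp hw with hw | hw
      · exact hO z (hZO hz) w hw hadj
      · exact mask_eq_zero G us z (hmz z hz) w (List.mem_toFinset.mp hw) hadj.symm
    -- for the last step all of `Z` is adjacent to `v`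
    have hlast : r = 0 → ∀ z ∈ Z, G.Adj v z := by
      intro hr z hz
      subst hr
      have hrest : rest' = [] := List.length_eq_zero_iff.mp hlen'
      subst hrest
      simp only [Path] at hpath'
      have hzW : z ∈ W := by
        rw [← hpath']
        exact Finset.mem_insert_of_mem (Finset.mem_union_left _ (hZO hz))
      obtain ⟨y, hy, hadj⟩ := hiso z hzW
      rw [← hpath'] at hy
      rcases Finset.mem_insert.mp hy with rfl | hy
      · exact hadj.symm
      · exact absurd hadj (hZiso z hz y hy)
    have hlastK : r = 0 → I + T' = K := by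
      intro hr
      subst hr
      have hrest : rest' = [] := List.length_eq_zero_iff.mp hlen'
      subst hrest
      simp only [Path] at hpath'
      rw [← hIT, hpath', hK]
    have hlastZ : r = 0 → T' * 2 ^ Z.card ≤ I := by
      intro hr
      apply cnt_isolated G Z U (nn G U v)
        (fun z hz => Finset.mem_union_left _ (hZO hz)) (nn_subset G U v) _ hZiso
      rw [Finset.disjoint_left]
      intro w hw hwZ
      exact ((mem_nn G).mp hw).2.2 (hlast hr w hwZ)
    -- unfold the search
    rw [search] at hs
    rw [(ble_iff _ _).mpr (by rw [← hK]; simpa [hlen'] using hub : K ≤ ub (r+1) I T)] at hs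
    simp only [Bool.not_true, cond_false] at hs
    have hb1 : Nat.ble K I = false := by
      rw [Bool.eq_false_iff]; intro h; have := (ble_iff _ _).mp h; omega
    rw [hb1, cond_false] at hs
    have hb2 : (Nat.beq r 0 && (!(Nat.ble ((K - I) * 2^Z.card) I) || !(Nat.ble (2*(K-I)) I) ||
        !(Nat.ble (K-I) (2*T)))) = false := by
      by_cases hr : r = 0
      · have hKI : K - I = T' := by have := hlastK hr; omega
        rw [hKI, (ble_iff _ _).mpr (hlastZ hr), (ble_iff _ _).mpr hThalf, (ble_iff _ _).mpr hT2]
        simp
      · have : Nat.beq r 0 = false := by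
          rw [Bool.eq_false_iff]; intro h; exact hr ((beq_iff _ _).mp h)
        rw [this]; simp
    rw [hb2, cond_false, forceN_eq] at hs
    set L := findL K r I 14 0 I with hL
    have hb3 : (!(Nat.beq L 0) && Nat.ble K (ub r (I + (L - 1)) (L-1))) = false := by
      by_contra h
      have h' : (!(Nat.beq L 0) && Nat.ble K (ub r (I + (L - 1)) (L-1))) = true := by
        simpa using h
      rw [h', cond_true] at hs
      exact absurd hs (by simp)
    have hLT : L ≤ T' := by
      by_contra hc
      have hL0 : Nat.beq L 0 = false := by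
        rw [Bool.eq_false_iff]; intro h; have := (beq_iff _ _).mp h; omega
      rw [hL0] at hb3
      simp only [Bool.not_false, Bool.true_and] at hb3
      have h1 : ub r (I + T') T' ≤ ub r (I + (L-1)) (L-1) := by
        apply ub_mono <;> omega
      have h2 := (ble_iff K _).mpr (hub'.trans h1)
      rw [h2] at hb3
      exact absurd hb3 (by simp)
    rw [hb3, cond_false, forceN_eq, mkW_eq] at hs
    have hs2 := allB_spec _ _ hs (mask G us v) (mask_lt G us v)
    -- the starting weights
    set ind' := (inds G us).filter (fun A => Nat.beq (Nat.land A (mask G us v)) 0) with hind'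
    have hW0 : filt (mask G us v) ((inds G us).map (fun A => (A, expo A cls Z.card))) =
        ind'.map (fun A => (A, expo A cls Z.card)) := by
      rw [filt_eq, List.filter_map]
      rfl
    rw [hW0] at hs2
    set Z1 := Z.filter (fun z => G.Adj v z) with hZ1
    set Z0 := Z.filter (fun z => ¬ G.Adj v z) with hZ0
    have hZ01 : Z1.card + Z0.card = Z.card :=
      Finset.card_filter_add_card_filter_not (s := Z) (p := fun z => G.Adj v z)
    have hZ1Z : Z1 ⊆ Z := Finset.filter_subset _ _
    have hZ0Z : Z0 ⊆ Z := Finset.filter_subset _ _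
    have hZ1Z0 : Disjoint Z1 Z0 := by
      rw [Finset.disjoint_left]
      intro w hw hw'
      exact (Finset.mem_filter.mp hw').2 (Finset.mem_filter.mp hw).2
    have hW1 : decj 0 Z1.card (ind'.map (fun A => (A, expo A cls Z.card))) =
        ind'.map (fun A => (A, (X.filter (fun x => Nat.land A (mask G us x) = 0)).card +
          ((Z1 ∪ Z0).filter (fun x => Nat.land A (mask G us x) = 0 ∧ ¬ G.Adj v x)).card)) := by
      unfold decj
      rw [List.map_map]
      apply List.map_congr_left
      intro A _
      simp only [Function.comp]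
      have h0 : Nat.land A 0 = 0 := Nat.and_zero A
      rw [if_pos h0, expo_eq G us A cls X _ hpart]
      have h1 : (Z1 ∪ Z0).filter (fun x => Nat.land A (mask G us x) = 0 ∧ ¬ G.Adj v x) = Z0 := by
        ext x
        simp only [Finset.mem_filter, Finset.mem_union, hZ1, hZ0]
        constructor
        · rintro ⟨⟨h, _⟩ | ⟨h, _⟩, h2, h3⟩ <;> exact ⟨h, h3⟩
        · rintro ⟨h, h2⟩
          refine ⟨Or.inr ⟨h, h2⟩, ?_, h2⟩
          rw [hmz x h]; exact h0
      rw [h1]
      congr 1
      omega
    -- union of the parts
    have hunion : X ∪ Z1 ∪ Z0 = O := by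
      have h10 : Z1 ∪ Z0 = Z := Finset.filter_union_filter_not_eq _ Z
      rw [Finset.union_assoc, h10, Finset.union_comm]
      exact hZX
    have hfin : finT G us v ind' (X ∪ Z1 ∪ Z0) = T' := by
      rw [hunion, hT', hU, cnt_nn_eq G us hnd O hO hdis v hvU]
    have hXZ1 : Disjoint X Z1 := (hdZX.mono_left hZ1Z).symm
    have hXZ0 : Disjoint X Z0 := (hdZX.mono_left hZ0Z).symm
    have hTle : T' ≤ totl (decj 0 Z1.card (ind'.map (fun A => (A, expo A cls Z.card)))) := by
      rw [hW1, ← hfin]
      unfold finT totl
      rw [List.map_map, List.map_map]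
      apply List.sum_le_sum
      intro A _
      simp only [Function.comp]
      apply Nat.pow_le_pow_right (by norm_num)
      have : X ∪ Z1 ∪ Z0 = X ∪ (Z1 ∪ Z0) := Finset.union_assoc _ _ _
      rw [this, Finset.filter_union]
      refine (Finset.card_union_le _ _).trans ?_
      apply Nat.add_le_add_right
      apply Finset.card_le_card
      intro x hx
      simp only [Finset.mem_filter] at hx ⊢
      exact ⟨hx.1, hx.2.1⟩
    have hs3 := loopC_spec (fun T' => Nat.ble L T')
      (fun a b hab h => (ble_iff _ _).mpr (((ble_iff _ _).mp h).trans hab)) 0 _ Z.card 0 _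
      Z1.card (Finset.card_le_card hZ1Z) hs2 ((ble_iff _ _).mpr (hLT.trans hTle))
    rw [hW1, Nat.zero_add] at hs3
    have hb4 : (Nat.beq r 0 && !(Nat.beq Z1.card Z.card)) = false := by
      by_cases hr : r = 0
      · have h1 : Z1 = Z := by
          rw [hZ1]
          exact Finset.filter_true_of_mem (hlast hr)
        rw [h1, (beq_iff _ _).mpr rfl]; simp
      · have : Nat.beq r 0 = false := by
          rw [Bool.eq_false_iff]; intro h; exact hr ((beq_iff _ _).mp h)
        rw [this]; simp
    rw [hb4, cond_false] at hs3
    -- the partition of the processed part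
    have hmz1 : ∀ z ∈ Z1, mask G (v :: us) z = 2 ^ us.length := by
      intro z hz
      have h1 := Finset.mem_filter.mp hz
      simp only [mask, hmz z h1.1, if_pos h1.2, Nat.zero_add]
    have hpartZ1 : Part G (v :: us) (bif Nat.beq Z1.card 0 then [] else [(2 ^ us.length, Z1.card)])
        Z1 := by
      by_cases h0 : Z1.card = 0
      · rw [(beq_iff _ _).mpr h0, cond_true]
        exact Finset.card_eq_zero.mp h0
      · have : Nat.beq Z1.card 0 = false := by
          rw [Bool.eq_false_iff]; intro h; exact h0 ((beq_iff _ _).mp h)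
        rw [this, cond_false]
        exact ⟨Z1, ∅, by simp, Finset.disjoint_empty_right _, rfl, hmz1, rfl⟩
    -- monotone check
    have hmono : ∀ a b, a ≤ b →
        (Nat.ble L a && (!(Nat.beq r 1) || Nat.ble ((K - (I+a)) * 2^(Z.card - Z1.card)) (I+a)))
          = true →
        (Nat.ble L b && (!(Nat.beq r 1) || Nat.ble ((K - (I+b)) * 2^(Z.card - Z1.card)) (I+b)))
          = true := by
      intro a b hab h
      simp only [Bool.and_eq_true, Bool.or_eq_true, ble_iff] at h ⊢
      refine ⟨h.1.trans hab, ?_⟩
      rcases h.2 with h2 | h2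
      · exact Or.inl h2
      · right
        have h3 : (K - (I + b)) * 2 ^ (Z.card - Z1.card) ≤ (K - (I+a)) * 2^(Z.card - Z1.card) :=
          Nat.mul_le_mul_right _ (by omega)
        omega
    have hokT : (Nat.ble L (finT G us v ind' (X ∪ Z1 ∪ Z0)) && (!(Nat.beq r 1) ||
        Nat.ble ((K - (I+finT G us v ind' (X ∪ Z1 ∪ Z0))) * 2^(Z.card - Z1.card))
          (I+finT G us v ind' (X ∪ Z1 ∪ Z0)))) = true := by
      rw [hfin, (ble_iff _ _).mpr hLT]
      by_cases hr : r = 1
      · have hz0 : Z.card - Z1.card = Z0.card := by omega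
        rw [hz0]
        have h1 : (K - (I + T')) * 2 ^ Z0.card ≤ I + T' := by
          -- one more vertex `w`
          obtain ⟨w, rest'', rfl⟩ : ∃ w rest'', rest' = w :: rest'' := by
            cases rest' with
            | nil => simp at hlen'; omega
            | cons w rest'' => exact ⟨w, rest'', rfl⟩
          have hrest'' : rest'' = [] := by
            apply List.length_eq_zero_iff.mp
            simp at hlen'; omega
          subst hrest''
          obtain ⟨hwU, _, _, hW⟩ := hpath'
          simp only [Path] at hW
          have h2 : K = I + T' + cnt G (nn G (insert v U) w) := by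
            rw [← hK, ← hW, cnt_insert G hwU, hIT]
          have h3 : K - (I + T') = cnt G (nn G (insert v U) w) := by omega
          rw [h3, ← hIT]
          apply cnt_isolated G Z0 (insert v U) (nn G (insert v U) w)
          · intro z hz
            exact Finset.mem_insert_of_mem (Finset.mem_union_left _ (hZO (hZ0Z hz)))
          · exact nn_subset G _ _
          · rw [Finset.disjoint_left]
            intro y hy hyZ
            have hyZ' := Finset.mem_filter.mp hyZ
            have hyW : y ∈ W := by
              rw [← hW]
              exact Finset.mem_insert_of_mem (Finset.mem_insert_of_mem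
                (Finset.mem_union_left _ (hZO hyZ'.1)))
            obtain ⟨x, hx, hadj⟩ := hiso y hyW
            rw [← hW] at hx
            rcases Finset.mem_insert.mp hx with rfl | hx
            · exact ((mem_nn G).mp hy).2.2 hadj.symm
            · rcases Finset.mem_insert.mp hx with rfl | hx
              · exact hyZ'.2 hadj.symm
              · exact hZiso y hyZ'.1 x hx hadj
          · intro z hz y hy hadj
            have hz' := Finset.mem_filter.mp hz
            rcases Finset.mem_insert.mp hy with rfl | hy
            · exact hz'.2 hadj.symm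
            · exact hZiso z hz'.1 y hy hadj
        rw [(ble_iff _ _).mpr h1]; simp
      · have : Nat.beq r 1 = false := by
          rw [Bool.eq_false_iff]; intro h; exact hr ((beq_iff _ _).mp h)
        rw [this]; simp
    obtain ⟨acc', hacc', hk⟩ := enum_spec G _ hmono _ us v ind' cls _ X Z1 Z0 hXZ1 hXZ0 hZ1Z0
      hpart hpartZ1 hokT hs3
    rw [hfin] at hk
    have hb5 : (Nat.ble T' (min (2*T) (I/2)) && Nat.ble (I+T') K &&
        (!(Nat.beq r 0) || Nat.beq (I+T') K)) = true := by
      rw [(ble_iff T' _).mpr (le_min hT2 (by omega)), (ble_iff _ _).mpr hle]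
      by_cases hr : r = 0
      · rw [(beq_iff (I+T') K).mpr (hlastK hr)]; simp
      · have : Nat.beq r 0 = false := by
          rw [Bool.eq_false_iff]; intro h; exact hr ((beq_iff _ _).mp h)
        rw [this]; simp
    rw [hb5, cond_true] at hk
    -- apply the induction hypothesis
    have hU' : O ∪ (v :: us).toFinset = insert v U := by
      rw [hU, List.toFinset_cons]
      ext w; simp only [Finset.mem_union, Finset.mem_insert]; tauto
    have hz0 : Z.card - Z1.card = Z0.card := by omega
    obtain ⟨us', cls', X', h1, h2, h3, h4, h5⟩ := ih (v :: us) O Z0 (X ∪ Z1) acc' T' rest' hlen' hO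
      (List.nodup_cons.mpr ⟨hvus, hnd⟩)
      (by
        intro x hx h
        rcases List.mem_cons.mp h with rfl | h
        · exact hvO hx
        · exact hdis x hx h)
      (by rw [Finset.union_comm]; exact hunion)
      (by rw [Finset.disjoint_union_right]; exact ⟨hXZ0.symm, hZ1Z0.symm⟩)
      (by
        intro z hz
        have hz' := Finset.mem_filter.mp hz
        simp only [mask, hmz z hz'.1, if_neg hz'.2])
      hacc'
      (by rw [hU']; exact hpath')
      (by
        rw [hU', hIT, ← hz0]
        exact hk)
    exact ⟨us', cls', X', h1, h2, h3, h4, h5⟩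

end Pool.Agent.Lib.MP_1f0029_co
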