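import Mathlib
import Pool.Agent.Lib.MP_1f0029_co.Sound

/-!
# Forbidden induced subgraphs of comparability graphs, and their detection in a final state
-/

set_option linter.unusedSectionVars false

namespace Pool.Agent.Lib.MP_1f0029_co

open Finset

/-! ### Comparability graphs -/

/-- The comparability graph of a partial order. -/
def compGraph (P : Type) [PartialOrder P] : SimpleGraph P where
  Adj x y := x < y ∨ y < x
  symm := ⟨fun _ _ h => h.symm⟩
  loopless := ⟨fun x h => by rcases h with h | h <;> exact lt_irrefl x h⟩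

lemma no_C5 {P : Type} [PartialOrder P] {a b c d e : P}
    (hab : (compGraph P).Adj a b) (hbc : (compGraph P).Adj b c) (hcd : (compGraph P).Adj c d)
    (hde : (compGraph P).Adj d e) (hea : (compGraph P).Adj e a)
    (hac : ¬ (compGraph P).Adj a c) (hbd : ¬ (compGraph P).Adj b d)
    (hce : ¬ (compGraph P).Adj c e) (hda : ¬ (compGraph P).Adj d a)
    (heb : ¬ (compGraph P).Adj e b) : False := by
  simp only [compGraph] at *
  -- two consecutive edges point in opposite directions
  have key : ∀ x y z : P, (x < y ∨ y < x) → (y < z ∨ z < y) → ¬ (x < z ∨ z < x) →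
      (x < y → z < y) ∧ (y < x → y < z) := by
    intro x y z _ h2 h3
    constructor
    · intro h
      rcases h2 with h2 | h2
      · exact absurd (Or.inl (h.trans h2)) h3
      · exact h2
    · intro h
      rcases h2 with h2 | h2
      · exact h2
      · exact absurd (Or.inr (h2.trans h)) h3
  have k1 := key a b c hab hbc hac
  have k2 := key b c d hbc hcd hbd
  have k3 := key c d e hcd hde hce
  have k4 := key d e a hde hea hda
  have k5 := key e a b hea hab heb
  rcases hab with h | h
  · have h1 := k1.1 h
    have h2 := k2.2 h1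
    have h3 := k3.1 h2
    have h4 := k4.2 h3
    have h5 := k5.1 h4
    exact lt_asymm h h5
  · have h1 := k1.2 h
    have h2 := k2.1 h1
    have h3 := k3.2 h2
    have h4 := k4.1 h3
    have h5 := k5.2 h4
    exact lt_asymm h h5

lemma no_net {P : Type} [PartialOrder P] {a b c a' b' c' : P}
    (hab : (compGraph P).Adj a b) (hbc : (compGraph P).Adj b c) (hca : (compGraph P).Adj c a)
    (haa : (compGraph P).Adj a a') (hbb : (compGraph P).Adj b b') (hcc : (compGraph P).Adj c c')
    (h1 : ¬ (compGraph P).Adj a' b) (h2 : ¬ (compGraph P).Adj a' c)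
    (h3 : ¬ (compGraph P).Adj b' a) (h4 : ¬ (compGraph P).Adj b' c)
    (h5 : ¬ (compGraph P).Adj c' a) (h6 : ¬ (compGraph P).Adj c' b) : False := by
  simp only [compGraph] at *
  -- the middle vertex of a chain cannot have a private neighbour
  have key : ∀ x y z w : P, x < y → y < z → (y < w ∨ w < y) → ¬ (w < x ∨ x < w) →
      ¬ (w < z ∨ z < w) → False := by
    intro x y z w hxy hyz hw hx hz
    rcases hw with hw | hw
    · exact hx (Or.inr (hxy.trans hw))
    · exact hz (Or.inl (hw.trans hyz))
  rcases hab with hab | hab <;> rcases hbc with hbc | hbc <;> rcases hca with hca | hca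
  · exact absurd (hab.trans hbc) (lt_asymm hca)
  · exact key a b c b' hab hbc hbb h3 h4
  · exact key c a b a' hca hab haa h2 h1
  · exact key a c b c' hca hbc hcc h5 h6
  · exact key b c a c' hbc hca hcc h6 h5
  · exact key b a c a' hab hca haa h1 h2
  · exact key c b a b' hbc hab hbb h4 h3
  · exact absurd (hbc.trans hab) (lt_asymm hca)

/-! ### Descriptors -/

/-- The vertex of `us` with bit index `i`. -/
def at? {V : Type} : List V → ℕ → Option V
  | [], _ => none
  | u :: us, i => if i = us.length then some u else at? us i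

/-- Descriptors `(index, mask)` of the cover vertices. -/
def covD : List ℕ → List (ℕ × ℕ)
  | [] => []
  | B :: bs => (bs.length, B) ::
      (covD bs).map (fun q => (q.1, bif Nat.testBit B q.1 then q.2 + 2 ^ bs.length else q.2))

/-- Descriptors of the nonempty classes; the index 100 is not the index of a cover vertex. -/
def clsD (cls : List (ℕ × ℕ)) : List (ℕ × ℕ) :=
  (cls.filter (fun q => !(Nat.beq q.2 0))).map (fun q => (100, q.1))

/-- Adjacency of descriptors. -/
def adjD (a b : ℕ × ℕ) : Bool := Nat.testBit b.2 a.1 || Nat.testBit a.2 b.1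

/-- Detection of an induced 5-cycle. -/
def badC5 (D : List (ℕ × ℕ)) : Bool :=
  D.any fun a => D.any fun b => adjD a b &&
    D.any fun c => adjD b c && !(adjD a c) &&
      D.any fun d => adjD c d && !(adjD b d) && !(adjD d a) &&
        D.any fun e => adjD d e && adjD e a && !(adjD c e) && !(adjD e b)

/-- Detection of an induced net. -/
def badNet (D : List (ℕ × ℕ)) : Bool :=
  D.any fun a => D.any fun b => adjD a b &&
    D.any fun c => adjD b c && adjD c a &&
      (D.any fun a' => adjD a a' && !(adjD a' b) && !(adjD a' c)) &&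
      (D.any fun b' => adjD b b' && !(adjD b' a) && !(adjD b' c)) &&
      (D.any fun c' => adjD c c' && !(adjD c' a) && !(adjD c' b))

/-- The final test. -/
def bad (bs : List ℕ) (cls : List (ℕ × ℕ)) : Bool :=
  Nat.ble bs.length 100 && (badC5 (covD bs ++ clsD cls) || badNet (covD bs ++ clsD cls))

variable {V : Type} [DecidableEq V] (G : SimpleGraph V) [DecidableRel G.Adj]

lemma length_bsOf (us : List V) : (bsOf G us).length = us.length := by
  induction us with
  | nil => rfl
  | cons u us ih => simp [bsOf, ih]

lemma at?_lt {us : List V} {i : ℕ} {x : V} (h : at? us i = some x) : i < us.length := by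
  induction us with
  | nil => simp [at?] at h
  | cons u us ih =>
    simp only [at?] at h
    split_ifs at h with hi
    · simp [hi]
    · have := ih h
      simp only [List.length_cons]; omega

lemma at?_mem {us : List V} {i : ℕ} {x : V} (h : at? us i = some x) : x ∈ us := by
  induction us with
  | nil => simp [at?] at h
  | cons u us ih =>
    simp only [at?] at h
    split_ifs at h with hi
    · simp only [Option.some.injEq] at h
      rw [h]; exact List.mem_cons_self
    · exact List.mem_cons_of_mem _ (ih h)

lemma mask_testBit (us : List V) (x : V) {i : ℕ} {w : V} (h : at? us i = some w) :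
    (mask G us x).testBit i = decide (G.Adj w x) := by
  induction us with
  | nil => simp [at?] at h
  | cons u us ih =>
    simp only [at?] at h
    split_ifs at h with hi
    · simp only [Option.some.injEq] at h
      rw [hi, mask_testBit_last, h]
    · rw [mask_testBit_lt G u us x (at?_lt h)]
      exact ih h

/-- `x` is a vertex described by `q`. -/
def Real (us : List V) (O : Finset V) (q : ℕ × ℕ) (x : V) : Prop :=
  mask G us x = q.2 ∧ (at? us q.1 = some x ∨ (us.length ≤ q.1 ∧ x ∈ O))

lemma covD_real (us : List V) : ∀ q ∈ covD (bsOf G us),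
    ∃ x, mask G us x = q.2 ∧ at? us q.1 = some x := by
  induction us with
  | nil => intro q hq; simp [bsOf, covD] at hq
  | cons u us ih =>
    intro q hq
    simp only [bsOf, covD, List.mem_cons, List.mem_map, length_bsOf] at hq
    rcases hq with rfl | ⟨q', hq', rfl⟩
    · refine ⟨u, ?_, by simp [at?]⟩
      simp [mask]
    · obtain ⟨x, hx1, hx2⟩ := ih q' hq'
      refine ⟨x, ?_, ?_⟩
      · simp only [mask, hx1]
        have hb : (mask G us u).testBit q'.1 = decide (G.Adj x u) := mask_testBit G us u hx2
        rw [hb]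
        by_cases hadj : G.Adj u x
        · simp [hadj, hadj.symm]
        · have : ¬ G.Adj x u := fun h => hadj h.symm
          simp [hadj, this]
      · simp only [at?]
        have := at?_lt hx2
        rw [if_neg (by omega)]
        exact hx2

lemma clsD_real (us : List V) : ∀ (cls : List (ℕ × ℕ)) (X : Finset V), Part G us cls X →
    ∀ q ∈ clsD cls, q.1 = 100 ∧ ∃ x ∈ X, mask G us x = q.2 := by
  intro cls
  induction cls with
  | nil => intro X _ q hq; simp [clsD] at hq
  | cons r cls ih =>
    intro X hX q hq
    obtain ⟨p, n⟩ := r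
    obtain ⟨Y, Z, hYZ, _, hn, hp, hZ⟩ := hX
    unfold clsD at hq
    rw [List.filter_cons] at hq
    by_cases hn0 : n = 0
    · have : (!(Nat.beq n 0)) = false := by rw [(beq_iff n 0).mpr hn0]; rfl
      simp only [this] at hq
      obtain ⟨h1, x, hx, h2⟩ := ih Z hZ q hq
      exact ⟨h1, x, by rw [← hYZ]; exact Finset.mem_union_right _ hx, h2⟩
    · have : (!(Nat.beq n 0)) = true := by
        have : Nat.beq n 0 = false := by
          rw [Bool.eq_false_iff]; intro h; exact hn0 ((beq_iff _ _).mp h)
        rw [this]; rfl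
      simp only [this, if_true, List.map_cons, List.mem_cons] at hq
      rcases hq with rfl | hq
      · refine ⟨rfl, ?_⟩
        have hne : Y.Nonempty := by
          rw [← Finset.card_pos, hn]; omega
        obtain ⟨y, hy⟩ := hne
        exact ⟨y, by rw [← hYZ]; exact Finset.mem_union_left _ hy, hp y hy⟩
      · obtain ⟨h1, x, hx, h2⟩ := ih Z hZ q hq
        exact ⟨h1, x, by rw [← hYZ]; exact Finset.mem_union_right _ hx, h2⟩

lemma adjD_real (us : List V) (O : Finset V) (hO : Indep G O)
    {p q : ℕ × ℕ} {x y : V} (hx : Real G us O p x) (hy : Real G us O q y) :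
    G.Adj x y ↔ adjD p q = true := by
  obtain ⟨hx1, hx2⟩ := hx
  obtain ⟨hy1, hy2⟩ := hy
  unfold adjD
  rw [← hx1, ← hy1, Bool.or_eq_true]
  rcases hx2 with hx2 | ⟨hx2, hxO⟩
  · rw [mask_testBit G us y hx2]
    rcases hy2 with hy2 | ⟨hy2, hyO⟩
    · rw [mask_testBit G us x hy2]
      simp [G.adj_comm y x]
    · rw [testBit_of_lt (mask_lt G us x) hy2]
      simp
  · rw [testBit_of_lt (mask_lt G us y) hx2]
    rcases hy2 with hy2 | ⟨hy2, hyO⟩
    · rw [mask_testBit G us x hy2]
      simp [G.adj_comm y x]
    · rw [testBit_of_lt (mask_lt G us x) hy2]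
      simp [hO x hxO y hyO]

theorem bad_spec {P : Type} [PartialOrder P] [DecidableEq P]
    [DecidableRel (compGraph P).Adj] (us : List P) (O X : Finset P)
    (hO : Indep (compGraph P) O) (hXO : X ⊆ O) (cls : List (ℕ × ℕ))
    (hpart : Part (compGraph P) us cls X) (h : bad (bsOf (compGraph P) us) cls = true) :
    False := by
  unfold bad at h
  rw [Bool.and_eq_true, ble_iff, length_bsOf] at h
  obtain ⟨hlen, h⟩ := h
  set D := covD (bsOf (compGraph P) us) ++ clsD cls with hD
  have hreal : ∀ q ∈ D, ∃ x, Real (compGraph P) us O q x := by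
    intro q hq
    rcases List.mem_append.mp hq with hq | hq
    · obtain ⟨x, h1, h2⟩ := covD_real (compGraph P) us q hq
      exact ⟨x, h1, Or.inl h2⟩
    · obtain ⟨h1, x, hx, h2⟩ := clsD_real (compGraph P) us cls X hpart q hq
      exact ⟨x, h2, Or.inr ⟨by rw [h1]; exact hlen, hXO hx⟩⟩
  rw [Bool.or_eq_true] at h
  rcases h with h | h
  · unfold badC5 at h
    simp only [List.any_eq_true, Bool.and_eq_true, Bool.not_eq_true'] at h
    obtain ⟨a, ha, b, hb, hab, c, hc, ⟨hbc, hac⟩, d, hd, ⟨⟨hcd, hbd⟩, hda⟩, e, he,
      ⟨⟨⟨hde, hea⟩, hce⟩, heb⟩⟩ := h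
    obtain ⟨xa, ra⟩ := hreal a ha
    obtain ⟨xb, rb⟩ := hreal b hb
    obtain ⟨xc, rc⟩ := hreal c hc
    obtain ⟨xd, rd⟩ := hreal d hd
    obtain ⟨xe, re⟩ := hreal e he
    have neg : ∀ {p q : ℕ × ℕ} {x y : P}, Real (compGraph P) us O p x →
        Real (compGraph P) us O q y → adjD p q = false → ¬ (compGraph P).Adj x y := by
      intro p q x y h1 h2 h3 h4
      rw [adjD_real (compGraph P) us O hO h1 h2, h3] at h4
      exact absurd h4 (by simp)
    have pos : ∀ {p q : ℕ × ℕ} {x y : P}, Real (compGraph P) us O p x →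
        Real (compGraph P) us O q y → adjD p q = true → (compGraph P).Adj x y := by
      intro p q x y h1 h2 h3
      rwa [adjD_real (compGraph P) us O hO h1 h2]
    exact no_C5 (pos ra rb hab) (pos rb rc hbc) (pos rc rd hcd) (pos rd re hde) (pos re ra hea)
      (neg ra rc hac) (neg rb rd hbd) (neg rc re hce) (neg rd ra hda) (neg re rb heb)
  · unfold badNet at h
    simp only [List.any_eq_true, Bool.and_eq_true, Bool.not_eq_true'] at h
    obtain ⟨a, ha, b, hb, hab, c, hc, ⟨⟨⟨hbc, hca⟩, a', ha', ⟨haa, h1⟩, h2⟩,
      b', hb', ⟨hbb, h3⟩, h4⟩, c', hc', ⟨hcc, h5⟩, h6⟩ := h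
    obtain ⟨xa, ra⟩ := hreal a ha
    obtain ⟨xb, rb⟩ := hreal b hb
    obtain ⟨xc, rc⟩ := hreal c hc
    obtain ⟨xa', ra'⟩ := hreal a' ha'
    obtain ⟨xb', rb'⟩ := hreal b' hb'
    obtain ⟨xc', rc'⟩ := hreal c' hc'
    have neg : ∀ {p q : ℕ × ℕ} {x y : P}, Real (compGraph P) us O p x →
        Real (compGraph P) us O q y → adjD p q = false → ¬ (compGraph P).Adj x y := by
      intro p q x y h1 h2 h3 h4
      rw [adjD_real (compGraph P) us O hO h1 h2, h3] at h4
      exact absurd h4 (by simp)
    have pos : ∀ {p q : ℕ × ℕ} {x y : P}, Real (compGraph P) us O p x →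
        Real (compGraph P) us O q y → adjD p q = true → (compGraph P).Adj x y := by
      intro p q x y h1 h2 h3
      rwa [adjD_real (compGraph P) us O hO h1 h2]
    exact no_net (pos ra rb hab) (pos rb rc hbc) (pos rc ra hca)
      (pos ra ra' haa) (pos rb rb' hbb) (pos rc rc' hcc)
      (neg ra' rb h1) (neg ra' rc h2) (neg rb' ra h3) (neg rb' rc h4)
      (neg rc' ra h5) (neg rc' rb h6)

end Pool.Agent.Lib.MP_1f0029_co
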