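import Mathlib
import Pool.Agent.Lib.MP_1f0029_co.Bad

/-!
# Running the search in the kernel
-/

namespace Pool.Agent.Lib.MP_1f0029_co

/-- The search started from an independent set of `16 - t` vertices. -/
def run (t : ℕ) : Bool := search 8983 bad t 0 [] [0] (16 - t) [] (2 ^ (16 - t)) (2 ^ (16 - t))

set_option maxRecDepth 100000 in
theorem run_small : ∀ t ∈ [0, 1, 2, 3, 7, 8, 9, 10, 11, 12, 13, 14, 15, 16], run t = true := by
  decide +kernel

set_option maxRecDepth 100000 in
theorem run_4 : run 4 = true := by decide +kernel

set_option maxRecDepth 100000 in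
theorem run_5 : run 5 = true := by decide +kernel

set_option maxRecDepth 100000 in
theorem run_6 : run 6 = true := by decide +kernel

theorem run_all (t : ℕ) (ht : t ≤ 16) : run t = true := by
  have h := run_small
  simp only [List.mem_cons, List.not_mem_nil, or_false, forall_eq_or_imp, forall_eq] at h
  obtain ⟨h0, h1, h2, h3, h7, h8, h9, h10, h11, h12, h13, h14, h15, h16⟩ := h
  interval_cases t
  · exact h0
  · exact h1
  · exact h2
  · exact h3
  · exact run_4
  · exact run_5
  · exact run_6
  · exact h7
  · exact h8
  · exact h9
  · exact h10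
  · exact h11
  · exact h12
  · exact h13
  · exact h14
  · exact h15
  · exact h16

end Pool.Agent.Lib.MP_1f0029_co
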