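import Mathlib
import Pool.Agent.Lib.MP_1f0029_co.Run

/-!
# No poset on 16 points has 8983 antichains; a graph on 16 vertices has 8983 cliques
-/

namespace Pool.Agent.Lib.MP_1f0029_co

open Finset

lemma antichain_ncard (P : Type) [Fintype P] [PartialOrder P] [DecidableEq P]
    [DecidableRel (compGraph P).Adj] :
    {s : Finset P | IsAntichain (· ≤ ·) (s : Set P)}.ncard = cnt (compGraph P) Finset.univ := by
  unfold cnt
  rw [← Set.ncard_coe_finset]
  congr 1
  ext s
  simp only [Set.mem_setOf_eq, Finset.coe_filter, Finset.mem_powerset, Finset.subset_univ,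
    true_and]
  constructor
  · intro h x hx y hy hadj
    rcases hadj with hadj | hadj
    · exact h hx hy hadj.ne hadj.le
    · exact h hy hx hadj.ne hadj.le
  · intro h x hx y hy hne hle
    exact h x hx y hy (Or.inl (lt_of_le_of_ne hle hne))

theorem no_poset (P : Type) [Fintype P] [PartialOrder P] (hcard : Fintype.card P = 16)
    (hn : {s : Finset P | IsAntichain (· ≤ ·) (s : Set P)}.ncard = 8983) : False := by
  classical
  rw [antichain_ncard] at hn
  have hiso : ∀ x ∈ (Finset.univ : Finset P), ∃ y ∈ (Finset.univ : Finset P),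
      (compGraph P).Adj x y := by
    intro x hx
    by_contra hc
    push Not at hc
    have h1 := cnt_rec (compGraph P) hx
    have h2 : nn (compGraph P) Finset.univ x = Finset.univ.erase x := by
      ext w
      simp only [mem_nn, Finset.mem_erase, Finset.mem_univ, true_and, and_true]
      exact ⟨fun h => h.1, fun h => ⟨h, hc w (Finset.mem_univ w)⟩⟩
    rw [h2] at h1
    omega
  obtain ⟨O, rest, hO, hpath, hlen, -⟩ := exists_path (compGraph P) 16 Finset.univ
    (by rw [Finset.card_univ, hcard])
  have hle : rest.length ≤ 16 := by omega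
  have hOcard : O.card = 16 - rest.length := by omega
  have hrun := run_all rest.length hle
  unfold run at hrun
  have hcnt : cnt (compGraph P) O = 2 ^ (16 - rest.length) := by
    rw [cnt_of_indep _ hO, hOcard]
  have hpath' : Path (compGraph P) (O ∪ ([] : List P).toFinset) (2 ^ (16 - rest.length)) rest
      Finset.univ := by
    have : O ∪ ([] : List P).toFinset = O := by simp
    rw [this, ← hcnt]
    exact hpath
  obtain ⟨us', cls', X', h1, h2, h3, h4, h5⟩ := search_spec (compGraph P) 8983 bad Finset.univ
    hn hiso rest.length [] O O ∅ [] (2 ^ (16 - rest.length)) rest rfl hO List.nodup_nil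
    (by simp) (by simp) (by simp) (by intro z _; rfl) rfl hpath'
    (by
      have h0 : O ∪ ([] : List P).toFinset = O := by simp
      rw [h0, hcnt, hOcard]
      exact hrun)
  exact bad_spec us' O X' hO h3 cls' h4 h5

/-- Edges of the graph (to be complemented): adjacency bit masks. -/
def tab : List ℕ := [64, 64, 32, 208, 104, 20, 27, 65288, 128, 128, 128, 128, 128, 128, 128, 128]

/-- A graph on 16 vertices with 8983 independent sets. -/
def F : SimpleGraph (Fin 16) where
  Adj i j := (tab.getD i.val 0).testBit j.val = true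
  symm := ⟨by decide +kernel⟩
  loopless := ⟨by decide +kernel⟩

instance : DecidableRel F.Adj := fun i j =>
  inferInstanceAs (Decidable ((tab.getD i.val 0).testBit j.val = true))

def us0 : List (Fin 16) := [3, 5, 6, 7]

def X0 : Finset (Fin 16) := {0, 1, 2, 4, 8, 9, 10, 11, 12, 13, 14, 15}

theorem cnt_F : cnt F Finset.univ = 8983 := by
  have h := cnt_cov F us0 (by decide) X0
    (by unfold Indep; decide +kernel) (by decide +kernel) 0
  have h2 : X0 ∪ cov us0 0 = Finset.univ := by decide +kernel
  rw [h2] at h
  rw [h]
  decide +kernel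

theorem cliques_card : {s : Finset (Fin 16) | (Fᶜ).IsClique (s : Set (Fin 16))}.ncard = 8983 := by
  rw [← cnt_F]
  unfold cnt
  rw [← Set.ncard_coe_finset]
  congr 1
  ext s
  simp only [Set.mem_setOf_eq, Finset.coe_filter, Finset.mem_powerset, Finset.subset_univ,
    true_and]
  constructor
  · intro h x hx y hy hadj
    have := h hx hy hadj.ne
    rw [SimpleGraph.compl_adj] at this
    exact this.2 hadj
  · intro h x hx y hy hne
    rw [SimpleGraph.compl_adj]
    exact ⟨hne, h x hx y hy⟩

theorem not_main : ¬ (∀ n k : ℕ,
      (∃ G : SimpleGraph (Fin n),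
          {s : Finset (Fin n) | G.IsClique (s : Set (Fin n))}.ncard = k) →
      ∃ (P : Type) (_ : Fintype P) (_ : PartialOrder P),
          Fintype.card P = n ∧
          {s : Finset P | IsAntichain (· ≤ ·) (s : Set P)}.ncard = k) := by
  intro h
  obtain ⟨P, i1, i2, hcard, hn⟩ := h 16 8983 ⟨Fᶜ, cliques_card⟩
  exact no_poset P hcard hn

end Pool.Agent.Lib.MP_1f0029_co
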